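import Mathlib

/-! Weighted `L¹` deviation of monic polynomials on the half line: existence of a minimiser. -/

namespace Pool.Agent.Lib.MP_f9c8ff_an.Mo

open Real MeasureTheory Polynomial Set Filter Topology

/-- The weight `(1 + y²)^N (y² + r²)`. -/
noncomputable def wt (N : ℕ) (r y : ℝ) : ℝ := (1 + y ^ 2) ^ N * (y ^ 2 + r ^ 2)

/-- The weighted `L¹` norm of `Q(y²)` on the half line. -/
noncomputable def II (N : ℕ) (r : ℝ) (Q : ℝ[X]) : ℝ :=
  ∫ y in Ioi (0 : ℝ), |Q.eval (y ^ 2)| / wt N r y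

/-- Monic of degree `N`. -/
def Adm (N : ℕ) (Q : ℝ[X]) : Prop := Q.natDegree ≤ N ∧ Q.coeff N = 1

/-- The least weighted `L¹` norm of a monic polynomial of degree `N`. -/
noncomputable def EE (N : ℕ) (r : ℝ) : ℝ := sInf (II N r '' {Q | Adm N Q})

/-- Sum of the absolute values of the coefficients. -/
noncomputable def cs (N : ℕ) (Q : ℝ[X]) : ℝ := ∑ k ∈ Finset.range (N + 1), |Q.coeff k|

/-- The sign function with value `1` at `0`. -/
noncomputable def sg (x : ℝ) : ℝ := if 0 ≤ x then 1 else -1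

lemma sg_mul (x : ℝ) : sg x * x = |x| := by
  unfold sg; split_ifs with h
  · rw [abs_of_nonneg h, one_mul]
  · rw [abs_of_neg (not_le.mp h)]; ring

lemma abs_sg (x : ℝ) : |sg x| = 1 := by
  unfold sg; split_ifs <;> simp

lemma meas_sg : Measurable sg :=
  Measurable.ite measurableSet_Ici measurable_const measurable_const

lemma wt_pos (N : ℕ) {r : ℝ} (hr : 0 < r) (y : ℝ) : 0 < wt N r y := by
  unfold wt; positivity

lemma cs_nonneg (N : ℕ) (Q : ℝ[X]) : 0 ≤ cs N Q :=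
  Finset.sum_nonneg fun _ _ => abs_nonneg _

lemma eval_le {N : ℕ} {Q : ℝ[X]} (hQ : Q.natDegree ≤ N) {u : ℝ} (hu : 0 ≤ u) :
    |Q.eval u| ≤ cs N Q * (1 + u) ^ N := by
  rw [eval_eq_sum_range' (n := N + 1) (by omega), cs, Finset.sum_mul]
  refine (Finset.abs_sum_le_sum_abs _ _).trans (Finset.sum_le_sum fun k hk => ?_)
  rw [abs_mul, abs_of_nonneg (pow_nonneg hu k)]
  refine mul_le_mul_of_nonneg_left ?_ (abs_nonneg _)
  have hk' : k ≤ N := Nat.lt_succ_iff.mp (Finset.mem_range.mp hk)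
  calc u ^ k ≤ (1 + u) ^ k := pow_le_pow_left₀ hu (by linarith) k
    _ ≤ (1 + u) ^ N := pow_le_pow_right₀ (by linarith) hk'

lemma hasDeriv_atan {z : ℝ} (hz : 0 < z) (y : ℝ) :
    HasDerivAt (fun y => arctan (y / z)) (z / (y ^ 2 + z ^ 2)) y := by
  have h := ((hasDerivAt_id' y).div_const z).arctan
  convert h using 1
  field_simp
  ring

lemma tends_atan {z : ℝ} (hz : 0 < z) :
    Tendsto (fun y => arctan (y / z)) atTop (𝓝 (π / 2)) :=
  (tendsto_nhds_of_tendsto_nhdsWithin tendsto_arctan_atTop).comp (tendsto_id.atTop_div_const hz)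

lemma intg_poi {z : ℝ} (hz : 0 < z) : IntegrableOn (fun y => z / (y ^ 2 + z ^ 2)) (Ioi 0) :=
  integrableOn_Ioi_deriv_of_nonneg' (fun y _ => hasDeriv_atan hz y)
    (fun y _ => by positivity) (tends_atan hz)

lemma int_poi {z : ℝ} (hz : 0 < z) : ∫ y in Ioi (0 : ℝ), z / (y ^ 2 + z ^ 2) = π / 2 := by
  rw [integral_Ioi_of_hasDerivAt_of_tendsto' (fun y _ => hasDeriv_atan hz y) (intg_poi hz)
    (tends_atan hz)]
  simp

lemma meas_wt (N : ℕ) (r : ℝ) : Measurable (wt N r) := by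
  unfold wt; fun_prop

lemma intg {N : ℕ} {r : ℝ} (hr : 0 < r) {f : ℝ → ℝ} (hf : Measurable f) (c : ℝ)
    (h : ∀ y, |f y| ≤ c * (1 + y ^ 2) ^ N) :
    IntegrableOn (fun y => f y / wt N r y) (Ioi 0) := by
  refine Integrable.mono' ((intg_poi hr).const_mul (c / r))
    (hf.div (meas_wt N r)).aestronglyMeasurable (ae_of_all _ fun y => ?_)
  have hw := wt_pos N hr y
  rw [Real.norm_eq_abs, abs_div, abs_of_pos hw, div_le_iff₀ hw]
  refine (h y).trans (le_of_eq ?_)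
  unfold wt
  field_simp

lemma meas_ev (Q : ℝ[X]) : Measurable fun y : ℝ => Q.eval (y ^ 2) :=
  (Q.continuous.comp (continuous_pow 2)).measurable

lemma intg_mul {N : ℕ} {r : ℝ} (hr : 0 < r) {R : ℝ[X]} (hR : R.natDegree ≤ N) {h : ℝ → ℝ}
    (hh : Measurable h) (c : ℝ) (hc : ∀ y, |h y| ≤ c) :
    IntegrableOn (fun y => h y * R.eval (y ^ 2) / wt N r y) (Ioi 0) := by
  refine intg hr (hh.mul (meas_ev R)) (c * cs N R) fun y => ?_
  rw [abs_mul, mul_assoc]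
  exact mul_le_mul (hc y) (eval_le hR (sq_nonneg y)) (abs_nonneg _) ((abs_nonneg _).trans (hc y))

lemma intg_abs {N : ℕ} {r : ℝ} (hr : 0 < r) {R : ℝ[X]} (hR : R.natDegree ≤ N) :
    IntegrableOn (fun y => |R.eval (y ^ 2)| / wt N r y) (Ioi 0) :=
  intg hr (meas_ev R).abs (cs N R) fun y => by rw [abs_abs]; exact eval_le hR (sq_nonneg y)

lemma intg_habs {N : ℕ} {r : ℝ} (hr : 0 < r) {R : ℝ[X]} (hR : R.natDegree ≤ N) {h : ℝ → ℝ}
    (hh : Measurable h) (c : ℝ) (hc : ∀ y, |h y| ≤ c) :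
    IntegrableOn (fun y => h y * |R.eval (y ^ 2)| / wt N r y) (Ioi 0) := by
  refine intg hr (hh.mul (meas_ev R).abs) (c * cs N R) fun y => ?_
  rw [abs_mul, abs_abs, mul_assoc]
  exact mul_le_mul (hc y) (eval_le hR (sq_nonneg y)) (abs_nonneg _) ((abs_nonneg _).trans (hc y))

lemma II_nonneg (N : ℕ) {r : ℝ} (hr : 0 < r) (Q : ℝ[X]) : 0 ≤ II N r Q :=
  integral_nonneg fun y => div_nonneg (abs_nonneg _) (wt_pos N hr y).le

lemma II_le_cs {N : ℕ} {r : ℝ} (hr : 0 < r) {Q : ℝ[X]} (hQ : Q.natDegree ≤ N) :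
    II N r Q ≤ cs N Q * (π / (2 * r)) := by
  have e : cs N Q * (π / (2 * r)) = ∫ y in Ioi (0 : ℝ), cs N Q / r * (r / (y ^ 2 + r ^ 2)) := by
    rw [integral_const_mul, int_poi hr]; field_simp
  rw [e]
  refine integral_mono (intg_abs hr hQ) ((intg_poi hr).const_mul _) fun y => ?_
  have hw := wt_pos N hr y
  simp only
  rw [div_le_iff₀ hw]
  refine (eval_le hQ (sq_nonneg y)).trans (le_of_eq ?_)
  unfold wt
  field_simp

lemma II_add_le {N : ℕ} {r : ℝ} (hr : 0 < r) {P Q : ℝ[X]} (hP : P.natDegree ≤ N)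
    (hQ : Q.natDegree ≤ N) : II N r (P + Q) ≤ II N r P + II N r Q := by
  unfold II
  rw [← integral_add (intg_abs hr hP) (intg_abs hr hQ)]
  refine integral_mono (intg_abs hr ((natDegree_add_le _ _).trans (max_le hP hQ)))
    ((intg_abs hr hP).add (intg_abs hr hQ)) fun y => ?_
  simp only [eval_add, ← add_div]
  exact div_le_div_of_nonneg_right (abs_add_le _ _) (wt_pos N hr y).le

lemma II_smul (N : ℕ) (r t : ℝ) (Q : ℝ[X]) : II N r (t • Q) = |t| * II N r Q := by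
  unfold II
  rw [← integral_const_mul]
  congr 1; ext y
  rw [eval_smul, smul_eq_mul, abs_mul, mul_div_assoc]

lemma II_anti {N : ℕ} {r s : ℝ} (hr : 0 < r) (hrs : r ≤ s) {Q : ℝ[X]} (hQ : Q.natDegree ≤ N) :
    II N s Q ≤ II N r Q := by
  refine integral_mono (intg_abs (hr.trans_le hrs) hQ) (intg_abs hr hQ) fun y => ?_
  refine div_le_div_of_nonneg_left (abs_nonneg _) (wt_pos N hr y) ?_
  unfold wt
  gcongr

lemma II_pos {N : ℕ} {r : ℝ} (hr : 0 < r) {Q : ℝ[X]} (hQ : Q.natDegree ≤ N) (h0 : Q ≠ 0) :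
    0 < II N r Q := by
  have hc : Continuous fun y : ℝ => |Q.eval (y ^ 2)| / wt N r y := by
    refine (Q.continuous.comp (continuous_pow 2)).abs.div (by unfold wt; fun_prop)
      fun y => (wt_pos N hr y).ne'
  unfold II
  rw [setIntegral_pos_iff_support_of_nonneg_ae
    (ae_of_all _ fun y => div_nonneg (abs_nonneg _) (wt_pos N hr y).le) (intg_abs hr hQ)]
  refine IsOpen.measure_pos _ (hc.isOpen_support.inter isOpen_Ioi) ?_
  by_contra hne
  apply h0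
  refine Q.eq_zero_of_infinite_isRoot ((Ioi_infinite (0 : ℝ)).mono fun u hu => ?_)
  by_contra hu0
  refine hne ⟨√u, ?_, sqrt_pos.mpr hu⟩
  rw [Function.mem_support, sq_sqrt (le_of_lt hu)]
  exact div_ne_zero (abs_ne_zero.mpr hu0) (wt_pos N hr _).ne'

/-- The polynomial with a given coefficient vector. -/
noncomputable def pc (N : ℕ) (c : Fin (N + 1) → ℝ) : ℝ[X] :=
  ∑ i : Fin (N + 1), monomial (i : ℕ) (c i)

lemma pc_coeff (N : ℕ) (c : Fin (N + 1) → ℝ) (i : Fin (N + 1)) : (pc N c).coeff i = c i := by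
  unfold pc
  rw [finsetSum_coeff, Finset.sum_eq_single i]
  · simp
  · intro j _ hj
    rw [coeff_monomial, if_neg fun h => hj (Fin.ext h)]
  · simp

lemma pc_deg (N : ℕ) (c : Fin (N + 1) → ℝ) : (pc N c).natDegree ≤ N :=
  natDegree_sum_le_of_forall_le _ _ fun i _ =>
    (natDegree_monomial_le _).trans (Nat.lt_succ_iff.mp i.2)

lemma pc_self {N : ℕ} {Q : ℝ[X]} (hQ : Q.natDegree ≤ N) : pc N (fun i => Q.coeff i) = Q := by
  unfold pc
  rw [Fin.sum_univ_eq_sum_range (fun i => monomial i (Q.coeff i))]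
  exact (as_sum_range' Q (N + 1) (by omega)).symm

lemma pc_add (N : ℕ) (c d : Fin (N + 1) → ℝ) : pc N (c + d) = pc N c + pc N d := by
  simp [pc, Finset.sum_add_distrib]

lemma pc_smul (N : ℕ) (t : ℝ) (c : Fin (N + 1) → ℝ) : pc N (t • c) = t • pc N c := by
  simp [pc, Finset.smul_sum, smul_monomial]

lemma cs_pc (N : ℕ) (c : Fin (N + 1) → ℝ) : cs N (pc N c) ≤ (N + 1) * ‖c‖ := by
  unfold cs
  rw [← Fin.sum_univ_eq_sum_range (fun i => |(pc N c).coeff i|)]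
  calc _ ≤ ∑ _i : Fin (N + 1), ‖c‖ := Finset.sum_le_sum fun i _ => by
        rw [pc_coeff]; exact norm_le_pi_norm c i
    _ = _ := by simp

lemma cont_II (N : ℕ) {r : ℝ} (hr : 0 < r) : Continuous fun c => II N r (pc N c) := by
  have hp := pi_pos
  refine (LipschitzWith.of_le_add_mul' ((N + 1) * (π / (2 * r))) fun c d => ?_).continuous
  have e : c = d + (c - d) := by abel
  have h1 := II_add_le hr (pc_deg N d) (pc_deg N (c - d))
  rw [← pc_add, ← e] at h1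
  have h2 := II_le_cs hr (pc_deg N (c - d))
  have h3 := mul_le_mul_of_nonneg_right (cs_pc N (c - d)) (by positivity : 0 ≤ π / (2 * r))
  rw [dist_eq_norm]
  nlinarith

lemma coerc (N : ℕ) : ∃ m : ℝ, 0 < m ∧ ∀ c, m * ‖c‖ ≤ II N 1 (pc N c) := by
  obtain ⟨c0, hc0, hmin⟩ := (isCompact_sphere (0 : Fin (N + 1) → ℝ) 1).exists_isMinOn
    (NormedSpace.sphere_nonempty.mpr zero_le_one) (cont_II N one_pos).continuousOn
  have hn : ‖c0‖ = 1 := by simpa using hc0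
  refine ⟨II N 1 (pc N c0), II_pos one_pos (pc_deg N c0) fun h => ?_, fun c => ?_⟩
  · have : c0 = 0 := funext fun i => by rw [← pc_coeff N c0 i, h]; simp
    simp [this] at hn
  · by_cases h : c = 0
    · rw [h, norm_zero, mul_zero]; exact II_nonneg N one_pos _
    have hc : 0 < ‖c‖ := norm_pos_iff.mpr h
    have h1 : II N 1 (pc N c0) ≤ II N 1 (pc N (‖c‖⁻¹ • c)) :=
      hmin (by simp [norm_smul, hc.ne'])
    rw [pc_smul, II_smul, abs_of_pos (inv_pos.mpr hc), ← div_eq_inv_mul, le_div_iff₀ hc] at h1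
    exact h1

lemma cs_le (N : ℕ) : ∃ A : ℝ, 0 < A ∧ ∀ Q : ℝ[X], Q.natDegree ≤ N → cs N Q ≤ A * II N 1 Q := by
  obtain ⟨m, hm, h⟩ := coerc N
  refine ⟨(N + 1) / m, by positivity, fun Q hQ => ?_⟩
  have h1 := h fun i => Q.coeff i
  have h2 := cs_pc N fun i => Q.coeff i
  rw [pc_self hQ] at h1 h2
  rw [div_mul_eq_mul_div, le_div_iff₀ hm]
  have : (0 : ℝ) ≤ N + 1 := by positivity
  nlinarith

lemma EE_le {N : ℕ} {r : ℝ} (hr : 0 < r) {Q : ℝ[X]} (hQ : Adm N Q) : EE N r ≤ II N r Q :=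
  csInf_le ⟨0, by rintro _ ⟨P, -, rfl⟩; exact II_nonneg N hr P⟩ ⟨Q, hQ, rfl⟩

lemma exists_min (N : ℕ) {r : ℝ} (hr : 0 < r) (hr1 : r ≤ 1) :
    ∃ Q : ℝ[X], Adm N Q ∧ II N r Q = EE N r := by
  obtain ⟨m, hm, h⟩ := coerc N
  have hcl : IsClosed {c : Fin (N + 1) → ℝ | c (Fin.last N) = 1} :=
    isClosed_eq (continuous_apply _) continuous_const
  have ht : Tendsto (fun c => II N r (pc N c)) (cocompact _) atTop :=
    tendsto_atTop_mono (fun c => (h c).trans (II_anti hr hr1 (pc_deg N c)))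
      (Tendsto.const_mul_atTop hm tendsto_norm_cocompact_atTop)
  obtain ⟨c, hc, hmin⟩ := (cont_II N hr).continuousOn.exists_isMinOn' hcl
    (x₀ := fun _ => 1) rfl ((ht.eventually_ge_atTop _).filter_mono inf_le_left)
  have hA : Adm N (pc N c) := ⟨pc_deg N c, by
    have := pc_coeff N c (Fin.last N)
    rw [Fin.val_last] at this
    rw [this]; exact hc⟩
  refine ⟨pc N c, hA, le_antisymm (le_csInf ⟨_, _, hA, rfl⟩ ?_) (EE_le hr hA)⟩
  rintro _ ⟨P, hP, rfl⟩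
  have := hmin (a := fun i => P.coeff i) hP.2
  simp only [mem_ofPred_eq, pc_self hP.1] at this
  exact this

lemma Adm.ne_zero {N : ℕ} {Q : ℝ[X]} (h : Adm N Q) : Q ≠ 0 := fun h0 => by
  have := h.2; simp [h0] at this

lemma EE_pos (N : ℕ) {r : ℝ} (hr : 0 < r) (hr1 : r ≤ 1) : 0 < EE N r := by
  obtain ⟨Q, hQ, e⟩ := exists_min N hr hr1
  rw [← e]; exact II_pos hr hQ.1 hQ.ne_zero

lemma EE_one_le (N : ℕ) {r : ℝ} (hr : 0 < r) (hr1 : r ≤ 1) : EE N 1 ≤ EE N r := by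
  obtain ⟨Q, hQ, e⟩ := exists_min N hr hr1
  rw [← e]; exact (EE_le one_pos hQ).trans (II_anti hr hr1 hQ.1)

lemma II_mul (M : ℕ) {r : ℝ} (hr : 0 < r) (Q : ℝ[X]) :
    II (M + 1) r (Q * (X + C (r ^ 2))) = II M 1 Q := by
  unfold II
  congr 1; ext y
  have h1 : 0 < y ^ 2 + r ^ 2 := by positivity
  rw [eval_mul, eval_add, eval_X, eval_C, abs_mul, abs_of_pos h1]
  unfold wt
  field_simp
  ring

lemma Adm.monic {N : ℕ} {Q : ℝ[X]} (h : Adm N Q) : Q.Monic :=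
  monic_of_natDegree_le_of_coeff_eq_one N h.1 h.2

lemma Adm.deg {N : ℕ} {Q : ℝ[X]} (h : Adm N Q) : Q.natDegree = N :=
  natDegree_eq_of_le_of_coeff_ne_zero h.1 (by rw [h.2]; exact one_ne_zero)

lemma adm_of {N : ℕ} {Q : ℝ[X]} (h : Q.Monic) (hd : Q.natDegree = N) : Adm N Q :=
  ⟨hd.le, by rw [← hd]; exact h⟩

lemma EE_le_pred (M : ℕ) {r : ℝ} (hr : 0 < r) : EE (M + 1) r ≤ EE M 1 := by
  obtain ⟨Q, hQ, e⟩ := exists_min M one_pos le_rfl
  rw [← e, ← II_mul M hr]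
  refine EE_le hr (adm_of (hQ.monic.mul (monic_X_add_C _)) ?_)
  rw [hQ.monic.natDegree_mul (monic_X_add_C _), hQ.deg, natDegree_X_add_C]

lemma EE_zero : EE 0 1 = π / 2 := by
  obtain ⟨Q, hQ, e⟩ := exists_min 0 one_pos le_rfl
  have : Q = 1 := hQ.monic.natDegree_eq_zero.mp hQ.deg
  rw [← e, this, ← int_poi one_pos]
  simp [II, wt]

end Pool.Agent.Lib.MP_f9c8ff_an.Mo
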