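import Pool.Agent.Lib.MP_f9c8ff_an.Mo.Bas

/-! Orthogonality relations and real simple zeros of the minimiser. -/

namespace Pool.Agent.Lib.MP_f9c8ff_an.Mo

open Real MeasureTheory Polynomial Set Filter Topology

/-- The polynomial with zeros `z²`, `z ∈ Y`. -/
noncomputable def QY (Y : Finset ℝ) : ℝ[X] := ∏ z ∈ Y, (X - C (z ^ 2))

/-- `QY Y` is extremal for the weight with parameters `N`, `r`. -/
structure Ext (N : ℕ) (r : ℝ) (Y : Finset ℝ) : Prop where
  card : Y.card = N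
  pos : ∀ z ∈ Y, 0 < z
  val : II N r (QY Y) = EE N r
  orth : ∀ R : ℝ[X], R.natDegree ≤ N →
    ∫ y in Ioi (0 : ℝ), sg ((QY Y).eval (y ^ 2)) * R.eval (y ^ 2) / wt N r y = R.coeff N * EE N r

lemma fin_zero {Q : ℝ[X]} (h : Q ≠ 0) : {y : ℝ | Q.eval (y ^ 2) = 0}.Finite := by
  have h2 : Q.comp (X ^ 2) ≠ 0 := by
    rw [Ne, comp_eq_zero_iff]
    rintro (h0 | ⟨-, h0⟩)
    · exact h h0
    · simp at h0
  simpa [IsRoot, eval_comp] using finite_setOfPred_isRoot h2

lemma ae_ne {Q : ℝ[X]} (h : Q ≠ 0) :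
    ∀ᵐ y ∂(volume.restrict (Ioi (0 : ℝ))), Q.eval (y ^ 2) ≠ 0 :=
  ae_restrict_of_ae ((fin_zero h).countable.ae_notMem volume)

lemma meas_sgQ (Q : ℝ[X]) : Measurable fun y : ℝ => sg (Q.eval (y ^ 2)) :=
  meas_sg.comp (meas_ev Q)

lemma intg_sg {N : ℕ} {r : ℝ} (hr : 0 < r) (Q : ℝ[X]) {R : ℝ[X]} (hR : R.natDegree ≤ N) :
    IntegrableOn (fun y => sg (Q.eval (y ^ 2)) * R.eval (y ^ 2) / wt N r y) (Ioi 0) :=
  intg_mul hr hR (meas_sgQ Q) 1 fun _ => (abs_sg _).le

lemma abs_pert {a b t : ℝ} (ht : 0 < t) (h : t * |b| < |a|) : (|a + t * b| - |a|) / t = sg a * b := by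
  have h1 := le_abs_self b
  have h2 := neg_abs_le b
  rw [div_eq_iff ht.ne']
  unfold sg
  split_ifs with ha
  · rw [abs_of_nonneg ha] at h ⊢
    rw [abs_of_nonneg (by nlinarith)]; ring
  · have ha' := not_le.mp ha
    rw [abs_of_neg ha'] at h ⊢
    rw [abs_of_nonpos (by nlinarith)]; ring

lemma orth_ge {N : ℕ} {r : ℝ} (hr : 0 < r) {Q R : ℝ[X]} (hQ : Adm N Q) (e : II N r Q = EE N r)
    (hR : R.natDegree ≤ N) (h0 : R.coeff N = 0) :
    0 ≤ ∫ y in Ioi (0 : ℝ), sg (Q.eval (y ^ 2)) * R.eval (y ^ 2) / wt N r y := by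
  set t : ℕ → ℝ := fun m => 1 / ((m : ℝ) + 1) with ht
  have tp : ∀ m, 0 < t m := fun m => by positivity
  have hA : ∀ m, Adm N (Q + t m • R) := fun m =>
    ⟨(natDegree_add_le _ _).trans (max_le hQ.1 ((natDegree_smul_le _ _).trans hR)), by
      simp [hQ.2, h0]⟩
  have lim := tendsto_integral_of_dominated_convergence (μ := volume.restrict (Ioi (0 : ℝ)))
    (F := fun m y => (|(Q + t m • R).eval (y ^ 2)| / wt N r y - |Q.eval (y ^ 2)| / wt N r y) / t m)
    (f := fun y => sg (Q.eval (y ^ 2)) * R.eval (y ^ 2) / wt N r y)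
    (fun y => |R.eval (y ^ 2)| / wt N r y)
    (fun m => (((intg_abs hr (hA m).1).sub (intg_abs hr hQ.1)).div_const _).aestronglyMeasurable)
    (intg_abs hr hR) (fun m => ae_of_all _ fun y => ?_) ?_
  · refine ge_of_tendsto' lim fun m => ?_
    rw [integral_div, integral_sub (intg_abs hr (hA m).1) (intg_abs hr hQ.1)]
    refine div_nonneg (sub_nonneg.mpr ?_) (tp m).le
    exact e.le.trans (EE_le hr (hA m))
  · have hw := wt_pos N hr y
    rw [← sub_div, div_right_comm, Real.norm_eq_abs, abs_div, abs_of_pos hw]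
    refine div_le_div_of_nonneg_right ?_ hw.le
    rw [abs_div, abs_of_pos (tp m), div_le_iff₀ (tp m)]
    refine (abs_abs_sub_abs_le_abs_sub _ _).trans (le_of_eq ?_)
    rw [eval_add, add_sub_cancel_left, eval_smul, smul_eq_mul, abs_mul, abs_of_pos (tp m), mul_comm]
  · filter_upwards [ae_ne hQ.ne_zero] with y hy
    have h1 : Tendsto (fun m => t m * |R.eval (y ^ 2)|) atTop (𝓝 0) := by
      simpa [ht] using tendsto_one_div_add_atTop_nhds_zero_nat.mul_const |R.eval (y ^ 2)|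
    refine tendsto_const_nhds.congr' ?_
    filter_upwards [h1.eventually_lt_const (abs_pos.mpr hy)] with m hm
    rw [← sub_div, div_right_comm, eval_add, eval_smul, smul_eq_mul, abs_pert (tp m) hm]

lemma orth_zero {N : ℕ} {r : ℝ} (hr : 0 < r) {Q R : ℝ[X]} (hQ : Adm N Q) (e : II N r Q = EE N r)
    (hR : R.natDegree ≤ N) (h0 : R.coeff N = 0) :
    ∫ y in Ioi (0 : ℝ), sg (Q.eval (y ^ 2)) * R.eval (y ^ 2) / wt N r y = 0 := by
  refine le_antisymm ?_ (orth_ge hr hQ e hR h0)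
  have := orth_ge hr hQ e (R := -R) (by simpa using hR) (by simp [h0])
  simp only [eval_neg, mul_neg, neg_div, integral_neg] at this
  linarith

lemma orth_all {N : ℕ} {r : ℝ} (hr : 0 < r) {Q R : ℝ[X]} (hQ : Adm N Q) (e : II N r Q = EE N r)
    (hR : R.natDegree ≤ N) :
    ∫ y in Ioi (0 : ℝ), sg (Q.eval (y ^ 2)) * R.eval (y ^ 2) / wt N r y = R.coeff N * EE N r := by
  have hd : (R - R.coeff N • Q).natDegree ≤ N :=
    (natDegree_sub_le _ _).trans (max_le hR ((natDegree_smul_le _ _).trans hQ.1))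
  have h := orth_zero hr hQ e hd (by simp [hQ.2])
  have e2 : ∀ y : ℝ, sg (Q.eval (y ^ 2)) * (R - R.coeff N • Q).eval (y ^ 2) / wt N r y
      = sg (Q.eval (y ^ 2)) * R.eval (y ^ 2) / wt N r y
        - R.coeff N * (|Q.eval (y ^ 2)| / wt N r y) := fun y => by
    rw [← sg_mul, eval_sub, eval_smul, smul_eq_mul]; ring
  simp only [e2] at h
  rw [integral_sub (intg_sg hr Q hR) ((intg_abs hr hQ.1).const_mul _), integral_const_mul] at h
  rw [← e]; unfold II; linarith

lemma no_factor {N : ℕ} {r : ℝ} (hr : 0 < r) {Q D P : ℝ[X]} (hQ : Adm N Q)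
    (e : II N r Q = EE N r) (hf : Q = D * P) (hD : 1 ≤ D.natDegree)
    (hp : ∀ u, 0 < u → 0 ≤ D.eval u) : False := by
  have hne := hQ.ne_zero
  have hD0 : D ≠ 0 := fun h => hne (by simp [hf, h])
  have hP0 : P ≠ 0 := fun h => hne (by simp [hf, h])
  have hd : P.natDegree < N := by
    have := hQ.deg
    rw [hf, natDegree_mul hD0 hP0] at this; omega
  have h := orth_zero hr hQ e hd.le (coeff_eq_zero_of_natDegree_lt hd)
  refine (II_pos hr hd.le hP0).ne' (Eq.trans (integral_congr_ae ?_) h)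
  filter_upwards [ae_ne hne, ae_restrict_mem measurableSet_Ioi] with y hy hy0
  rw [hf, eval_mul] at hy ⊢
  have h1 : 0 < D.eval (y ^ 2) :=
    (hp _ (pow_pos hy0 2)).lt_of_ne fun h => hy (by rw [← h, zero_mul])
  have h2 := sg_mul (D.eval (y ^ 2) * P.eval (y ^ 2))
  rw [abs_mul, abs_of_pos h1] at h2
  congr 1
  refine mul_left_cancel₀ h1.ne' ?_
  rw [← h2]; ring

lemma pos_of_no_root {q : ℝ[X]} (hq : q.Monic) (hd : 1 ≤ q.natDegree) (h0 : q.roots = 0) (u : ℝ) :
    0 ≤ q.eval u := by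
  by_contra hu
  have ht := q.tendsto_atTop_of_leadingCoeff_nonneg (natDegree_pos_iff_degree_pos.mp hd)
    (by rw [hq.leadingCoeff]; exact zero_le_one)
  obtain ⟨v, hv⟩ := (ht.eventually_ge_atTop 0).exists
  obtain ⟨x, hx⟩ := intermediate_value_univ u v q.continuous ⟨(not_le.mp hu).le, hv⟩
  have : x ∈ q.roots := (mem_roots hq.ne_zero).mpr hx
  simp [h0] at this

theorem exists_ext (N : ℕ) {r : ℝ} (hr : 0 < r) (hr1 : r ≤ 1) : ∃ Y, Ext N r Y := by
  classical
  obtain ⟨Q, hQ, e⟩ := exists_min N hr hr1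
  obtain ⟨q, hq, hc, h0⟩ := exists_prod_multiset_X_sub_C_mul Q
  have hm := monic_multisetProd_X_sub_C Q.roots
  have hqm : q.Monic := hm.of_mul_monic_left (by rw [hq]; exact hQ.monic)
  have hq0 : q.natDegree = 0 := by
    by_contra h
    exact no_factor hr hQ e (by rw [mul_comm]; exact hq.symm) (by omega)
      fun u _ => pos_of_no_root hqm (by omega) h0 u
  rw [hqm.natDegree_eq_zero.mp hq0, mul_one] at hq
  rw [hq0, add_zero, hQ.deg] at hc
  have hpos : ∀ a ∈ Q.roots, 0 < a := fun a ha => by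
    by_contra h
    obtain ⟨P, hP⟩ := dvd_iff_isRoot.mpr ((mem_roots hQ.ne_zero).mp ha)
    exact no_factor hr hQ e hP (by simp) fun u hu => by simp; linarith [not_lt.mp h]
  have hnd : Q.roots.Nodup := by
    rw [Multiset.nodup_iff_count_le_one]
    intro a
    rw [count_roots]
    by_contra h
    obtain ⟨P, hP⟩ := (le_rootMultiplicity_iff hQ.ne_zero (a := a) (n := 2)).mp (by omega)
    exact no_factor hr hQ e hP (by simp) fun u _ => by simp [sq_nonneg]
  have hinj : Set.InjOn (fun a : ℝ => √a) Q.roots.toFinset := fun a ha b hb h =>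
    (sqrt_inj (hpos a (by simpa using ha)).le (hpos b (by simpa using hb)).le).mp h
  have hY : QY (Q.roots.toFinset.image fun a => √a) = Q := by
    unfold QY
    rw [Finset.prod_image hinj]
    conv_rhs => rw [← hq]
    rw [Finset.prod_eq_multiset_prod, Multiset.toFinset_val, hnd.dedup]
    congr 1
    refine Multiset.map_congr rfl fun a ha => ?_
    rw [sq_sqrt (hpos a ha).le]
  refine ⟨Q.roots.toFinset.image fun a => √a, ?_, ?_, by rw [hY, e], fun R hR => ?_⟩
  · rw [Finset.card_image_of_injOn hinj, Multiset.toFinset_card_of_nodup hnd, hc]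
  · intro z hz
    obtain ⟨a, ha, rfl⟩ := Finset.mem_image.mp hz
    exact sqrt_pos.mpr (hpos a (by simpa using ha))
  · rw [hY]; exact orth_all hr hQ e hR

lemma QY_monic (Y : Finset ℝ) : (QY Y).Monic := monic_prod_of_monic _ _ fun _ _ => monic_X_sub_C _

lemma QY_deg (Y : Finset ℝ) : (QY Y).natDegree = Y.card := by
  unfold QY
  rw [natDegree_prod_of_monic _ _ fun _ _ => monic_X_sub_C _]
  simp only [natDegree_X_sub_C, Finset.sum_const, smul_eq_mul, mul_one]

lemma QY_eval (Y : Finset ℝ) (u : ℝ) : (QY Y).eval u = ∏ z ∈ Y, (u - z ^ 2) := by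
  simp [QY, eval_prod]

lemma Ext.adm {N : ℕ} {r : ℝ} {Y : Finset ℝ} (h : Ext N r Y) : Adm N (QY Y) :=
  adm_of (QY_monic Y) (by rw [QY_deg, h.card])

end Pool.Agent.Lib.MP_f9c8ff_an.Mo
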