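import Pool.Agent.Lib.MP_f9c8ff_an.Mo.Ext
import Pool.Agent.Lib.MP_f9c8ff_an.P3.Cn

/-! The Nikolskii constant in terms of the weighted minimum on the half line. -/

namespace Pool.Agent.Lib.MP_f9c8ff_an.Mo

open Real MeasureTheory Polynomial Set Filter Topology

lemma cov (F : ℝ → ℝ) : ∫ θ in (0 : ℝ)..π, F (cos θ)
    = ∫ y in Ioi (0 : ℝ), 2 / (1 + y ^ 2) * F ((y ^ 2 - 1) / (y ^ 2 + 1)) := by
  have him : (fun y => π - 2 * arctan y) '' Ioi 0 = Ioo 0 π := by
    ext θ
    constructor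
    · rintro ⟨y, hy, rfl⟩
      have h1 := arctan_lt_pi_div_two y
      have h2 := arctan_strictMono (show (0 : ℝ) < y from hy)
      rw [arctan_zero] at h2
      constructor <;> simp only <;> linarith
    · rintro ⟨h1, h2⟩
      refine ⟨tan ((π - θ) / 2), tan_pos_of_pos_of_lt_pi_div_two (by linarith) (by linarith), ?_⟩
      simp only
      rw [arctan_tan (by linarith) (by linarith)]; ring
  rw [intervalIntegral.integral_of_le pi_pos.le, integral_Ioc_eq_integral_Ioo, ← him,
    integral_image_eq_integral_abs_deriv_smul measurableSet_Ioi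
      (f' := fun y => -(2 * (1 / (1 + y ^ 2))))
      (fun y _ => (((hasDerivAt_arctan y).const_mul 2).const_sub π).hasDerivWithinAt)
      (fun a _ b _ h => arctan_injective (by linarith))]
  congr 1; ext y
  have : 0 < 1 + y ^ 2 := by positivity
  rw [abs_neg, abs_of_pos (by positivity), smul_eq_mul, cos_pi_sub, cos_two_mul, cos_sq_arctan]
  congr 1
  · ring
  · congr 1
    field_simp
    ring

lemma II_eq {n : ℕ} {p Q : ℝ[X]}
    (h : ∀ y : ℝ, Q.eval (y ^ 2) = (1 + y ^ 2) ^ n * p.eval ((y ^ 2 - 1) / (y ^ 2 + 1))) :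
    ∫ θ in (-π)..π, |p.eval (cos θ)| = 4 * II n 1 Q := by
  have hc : Continuous fun θ => |p.eval (cos θ)| := (p.continuous.comp continuous_cos).abs
  have h1 := intervalIntegral.integral_comp_neg (a := 0) (b := π) fun θ => |p.eval (cos θ)|
  simp only [cos_neg, neg_zero] at h1
  rw [← intervalIntegral.integral_add_adjacent_intervals (b := 0) (hc.intervalIntegrable _ _)
    (hc.intervalIntegrable _ _), ← h1, cov fun x => |p.eval x|, II, ← two_mul,
    ← integral_const_mul, ← integral_const_mul]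
  congr 1; ext y
  have : 0 < 1 + y ^ 2 := by positivity
  rw [h, abs_mul, abs_of_pos (pow_pos this n), wt]
  field_simp
  ring

lemma deg_bin {n k : ℕ} (hk : k ≤ n) (c : ℝ) {A B : ℝ[X]} (hA : A.natDegree ≤ 1)
    (hB : B.natDegree ≤ 1) : (c • (A ^ k * B ^ (n - k))).natDegree ≤ n := by
  refine (natDegree_smul_le _ _).trans (natDegree_mul_le.trans ?_)
  have h1 := natDegree_pow_le_of_le k hA
  have h2 := natDegree_pow_le_of_le (n - k) hB
  omega

lemma exists_Q {n : ℕ} {p : ℝ[X]} (hp : p.natDegree ≤ n) : ∃ Q : ℝ[X], Q.natDegree ≤ n ∧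
    Q.coeff n = p.eval 1 ∧
    ∀ y : ℝ, Q.eval (y ^ 2) = (1 + y ^ 2) ^ n * p.eval ((y ^ 2 - 1) / (y ^ 2 + 1)) := by
  refine ⟨∑ k ∈ Finset.range (n + 1), p.coeff k • ((X - C 1) ^ k * (X + C 1) ^ (n - k)),
    natDegree_sum_le_of_forall_le _ _ fun k hk => deg_bin
      (Nat.lt_succ_iff.mp (Finset.mem_range.mp hk)) _ (natDegree_X_sub_C _).le
      (natDegree_X_add_C _).le, ?_, fun y => ?_⟩
  · rw [finsetSum_coeff, eval_eq_sum_range' (n := n + 1) (by omega)]
    refine Finset.sum_congr rfl fun k hk => ?_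
    have hk' := Nat.lt_succ_iff.mp (Finset.mem_range.mp hk)
    have hm := ((monic_X_sub_C (1 : ℝ)).pow k).mul ((monic_X_add_C (1 : ℝ)).pow (n - k))
    have hd : ((X - C (1 : ℝ)) ^ k * (X + C 1) ^ (n - k)).natDegree = n := by
      rw [((monic_X_sub_C (1 : ℝ)).pow k).natDegree_mul ((monic_X_add_C (1 : ℝ)).pow (n - k)),
        natDegree_pow, natDegree_pow, natDegree_X_sub_C, natDegree_X_add_C]
      omega
    rw [coeff_smul, (adm_of hm hd).2, one_pow, smul_eq_mul]
  · rw [eval_finsetSum, eval_eq_sum_range' (p := p) (n := n + 1) (by omega), Finset.mul_sum]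
    refine Finset.sum_congr rfl fun k hk => ?_
    obtain ⟨j, rfl⟩ := Nat.exists_eq_add_of_le (Nat.lt_succ_iff.mp (Finset.mem_range.mp hk))
    have : y ^ 2 + 1 ≠ 0 := by positivity
    simp only [eval_smul, eval_mul, eval_pow, eval_sub, eval_add, eval_X, eval_C, smul_eq_mul,
      Nat.add_sub_cancel_left, div_pow, pow_add, add_comm 1 (y ^ 2)]
    field_simp

lemma exists_p {n : ℕ} {Q : ℝ[X]} (hQ : Q.natDegree ≤ n) : ∃ p : ℝ[X], p.natDegree ≤ n ∧
    Q.coeff n = p.eval 1 ∧
    ∀ y : ℝ, Q.eval (y ^ 2) = (1 + y ^ 2) ^ n * p.eval ((y ^ 2 - 1) / (y ^ 2 + 1)) := by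
  refine ⟨∑ k ∈ Finset.range (n + 1), Q.coeff k •
    ((C (1 / 2) * X + C (1 / 2)) ^ k * (C (-1 / 2) * X + C (1 / 2)) ^ (n - k)),
    natDegree_sum_le_of_forall_le _ _ fun k hk => deg_bin
      (Nat.lt_succ_iff.mp (Finset.mem_range.mp hk)) _ natDegree_linear_le natDegree_linear_le,
    ?_, fun y => ?_⟩
  · rw [eval_finsetSum, Finset.sum_range_succ, Finset.sum_eq_zero fun k hk => ?_]
    · norm_num
    · have : n - k ≠ 0 := by have := Finset.mem_range.mp hk; omega
      norm_num [this]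
  · rw [eval_finsetSum, eval_eq_sum_range' (p := Q) (n := n + 1) (by omega), Finset.mul_sum]
    refine Finset.sum_congr rfl fun k hk => ?_
    obtain ⟨j, rfl⟩ := Nat.exists_eq_add_of_le (Nat.lt_succ_iff.mp (Finset.mem_range.mp hk))
    have h0 : y ^ 2 + 1 ≠ 0 := by positivity
    have e1 : 1 / 2 * ((y ^ 2 - 1) / (y ^ 2 + 1)) + 1 / 2 = y ^ 2 / (y ^ 2 + 1) := by
      field_simp; ring
    have e2 : -1 / 2 * ((y ^ 2 - 1) / (y ^ 2 + 1)) + 1 / 2 = 1 / (y ^ 2 + 1) := by
      field_simp; ring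
    simp only [eval_smul, eval_mul, eval_pow, eval_add, eval_X, eval_C, smul_eq_mul,
      Nat.add_sub_cancel_left, e1, e2]
    simp only [div_pow, pow_add, add_comm 1 (y ^ 2), one_pow]
    field_simp

lemma exists_cos (n : ℕ) (a : ℕ → ℝ) :
    ∃ p : ℝ[X], p.natDegree ≤ n ∧ ∀ θ, p.eval (cos θ) = P3.trig n a 0 θ := by
  refine ⟨C (a 0 / 2) + ∑ k ∈ Finset.Icc 1 n, a k • Chebyshev.T ℝ k,
    (natDegree_add_le _ _).trans (max_le (by simp) (natDegree_sum_le_of_forall_le _ _
      fun k hk => (natDegree_smul_le _ _).trans ?_)), fun θ => ?_⟩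
  · rw [Chebyshev.natDegree_T]; exact (Finset.mem_Icc.mp hk).2
  · simp [P3.trig, eval_finsetSum, Chebyshev.T_real_cos]

lemma exists_coef (n : ℕ) (p : ℝ[X]) (hp : p.natDegree ≤ n) :
    ∃ a : ℕ → ℝ, ∀ θ, p.eval (cos θ) = P3.trig n a 0 θ := by
  induction n generalizing p with
  | zero =>
    refine ⟨fun _ => 2 * p.coeff 0, fun θ => ?_⟩
    rw [eq_C_of_natDegree_le_zero hp]
    simp [P3.trig]
  | succ n ih =>
    have hT : (Chebyshev.T ℝ (n + 1 : ℕ)).natDegree = n + 1 := by
      rw [Chebyshev.natDegree_T]; rfl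
    have hL : (Chebyshev.T ℝ (n + 1 : ℕ)).coeff (n + 1) = 2 ^ n := by
      have := Chebyshev.leadingCoeff_T ℝ (n + 1 : ℕ)
      rwa [leadingCoeff, hT] at this
    set c := p.coeff (n + 1) / 2 ^ n with hc
    have hd : (p - c • Chebyshev.T ℝ (n + 1 : ℕ)).natDegree ≤ n := by
      refine natDegree_le_pred (n := n + 1) ((natDegree_sub_le _ _).trans
        (max_le hp ((natDegree_smul_le _ _).trans hT.le))) ?_
      rw [coeff_sub, coeff_smul, hL, smul_eq_mul, hc]
      field_simp
      ring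
    obtain ⟨a, ha⟩ := ih _ hd
    refine ⟨Function.update a (n + 1) c, fun θ => ?_⟩
    have h := ha θ
    rw [eval_sub, eval_smul, Chebyshev.T_real_cos, smul_eq_mul] at h
    unfold P3.trig at h ⊢
    rw [Finset.sum_Icc_succ_top (by omega), Function.update_self,
      Function.update_of_ne (by omega),
      Finset.sum_congr rfl fun k hk => by
        rw [Function.update_of_ne (by have := (Finset.mem_Icc.mp hk).2; omega)]]
    simp only [Pi.zero_apply, zero_mul, add_zero, Int.cast_natCast] at h ⊢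
    linarith

lemma even_le (n : ℕ) (a b : ℕ → ℝ) :
    ∫ θ in (-π)..π, |P3.trig n a 0 θ| ≤ ∫ θ in (-π)..π, |P3.trig n a b θ| := by
  have hc := (P3.CnF.cont n a b).abs
  have hc' : Continuous fun θ => |P3.trig n a b (-θ)| := hc.comp continuous_neg
  have h1 := intervalIntegral.integral_comp_neg (a := -π) (b := π) fun θ => |P3.trig n a b θ|
  rw [neg_neg] at h1
  have h2 : ∫ θ in (-π)..π, |P3.trig n a 0 θ|
      ≤ ∫ θ in (-π)..π, 1 / 2 * (|P3.trig n a b θ| + |P3.trig n a b (-θ)|) := by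
    refine intervalIntegral.integral_mono_on (by linarith [pi_pos])
      ((P3.CnF.cont n a 0).abs.intervalIntegrable _ _)
      ((continuous_const.mul (hc.add hc')).intervalIntegrable _ _) fun θ _ => ?_
    have e : P3.trig n a b θ + P3.trig n a b (-θ) = 2 * P3.trig n a 0 θ := by
      unfold P3.trig
      rw [add_add_add_comm, ← Finset.sum_add_distrib, mul_add, Finset.mul_sum]
      congr 1
      · ring
      · refine Finset.sum_congr rfl fun k _ => ?_
        simp only [mul_neg, cos_neg, sin_neg, Pi.zero_apply]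
        ring
    have := abs_add_le (P3.trig n a b θ) (P3.trig n a b (-θ))
    rw [e, abs_mul, abs_two] at this
    linarith
  rw [intervalIntegral.integral_const_mul, intervalIntegral.integral_add
    (hc.intervalIntegrable _ _) (hc'.intervalIntegrable _ _), h1] at h2
  linarith

lemma coeff_mul_le {n : ℕ} {R : ℝ[X]} (hR : R.natDegree ≤ n) : R.coeff n * EE n 1 ≤ II n 1 R := by
  obtain ⟨Y, hY⟩ := exists_ext n one_pos le_rfl
  rw [← hY.orth R hR]
  refine integral_mono (intg_sg one_pos _ hR) (intg_abs one_pos hR) fun y => ?_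
  refine div_le_div_of_nonneg_right ((le_abs_self _).trans ?_) (wt_pos n one_pos y).le
  rw [abs_mul, abs_sg, one_mul]

theorem Cn_eq {n : ℕ} (hn : 1 ≤ n) : n * P3.Cn n = π / (2 * EE n 1) := by
  have hp := pi_pos
  have E0 := EE_pos n one_pos le_rfl
  have h1 : P3.Feas n (2 * EE n 1 / π) := fun a b => by
    obtain ⟨p, hd, he⟩ := exists_cos n a
    obtain ⟨Q, hQ, hc, hv⟩ := exists_Q hd
    have i1 := II_eq hv
    have i2 := coeff_mul_le hQ
    have i3 := even_le n a b
    have e : P3.trig n a b 0 = p.eval 1 := by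
      rw [← cos_zero, he]; simp [P3.trig]
    simp only [he] at i1
    rw [e, ← hc, div_mul_eq_mul_div, div_mul_eq_mul_div, div_le_div_iff₀ hp (by positivity)]
    nlinarith
  have h2 : ∀ lam, P3.Feas n lam → lam ≤ 2 * EE n 1 / π := fun lam hl => by
    obtain ⟨Q, hQ, e⟩ := exists_min n one_pos le_rfl
    obtain ⟨p, hd, hc, hv⟩ := exists_p hQ.1
    obtain ⟨a, ha⟩ := exists_coef n p hd
    have i1 := II_eq hv
    have := hl a 0
    simp only [← ha] at this
    rw [i1, cos_zero, ← hc, hQ.2, e, mul_one] at this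
    refine this.trans (le_of_eq ?_)
    field_simp
    ring
  obtain ⟨k1, k2, k3⟩ := P3.stCn n hn ⟨_, by positivity, h1⟩
  have e := le_antisymm (h2 _ k2) (k3 _ h1)
  rw [← one_div_one_div (n * P3.Cn n), e]
  field_simp

end Pool.Agent.Lib.MP_f9c8ff_an.Mo
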