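import Pool.Agent.Lib.MP_f9c8ff_an.Mo.Path
import Pool.Agent.Lib.MP_f9c8ff_an.Mo.Tr

/-! Monotonicity of the Nikolskii constants and the order of convergence. -/

namespace Pool.Agent.Lib.MP_f9c8ff_an.Mo

open Real Set Filter Topology

/-- The normalised minimum. -/
noncomputable def tt (n : ℕ) : ℝ := (n + 1) * EE n 1

lemma x_pos (n : ℕ) : 0 < EE n 1 := EE_pos n one_pos le_rfl

lemma tt_pos (n : ℕ) : 0 < tt n := by have := x_pos n; unfold tt; positivity

lemma tt_anti : StrictAnti tt := strictAnti_nat_of_succ_lt fun n => by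
  have h := drop_lower n
  have := x_pos (n + 1)
  have : 0 < 2 / 3 * (((n : ℝ) + 1) / (n + 2) * (4 * EE (n + 1) 1 ^ 3 / (9 * π ^ 2))) := by
    positivity
  unfold tt
  push_cast
  linarith

lemma tt_le (n : ℕ) : tt n ≤ π / 2 := by
  have := tt_anti.antitone (Nat.zero_le n)
  rwa [show tt 0 = π / 2 by simp [tt, EE_zero]] at this

lemma drop_le {n : ℕ} (hn : 1 ≤ n) : tt n - tt (n + 1) ≤ EE n 1 ^ 3 / (3 * 0.707) := by
  have hp := pi_pos
  have n1 : (1 : ℝ) ≤ n := by exact_mod_cast hn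
  have x0 := x_pos n
  have h1 := tt_le n
  have h2 : EE n 1 ≤ π / 4 := by unfold tt at h1; nlinarith
  have h3 : cos (π / 4) ≤ cos (EE n 1) := cos_le_cos_of_nonneg_of_le_pi x0.le (by linarith) h2
  have h4 : (1.414 : ℝ) ≤ √2 := le_sqrt_of_sq_le (by norm_num)
  rw [cos_pi_div_four] at h3
  have h5 := drop_upper n (by linarith)
  have h6 : EE n 1 ^ 3 / (3 * cos (EE n 1)) ≤ EE n 1 ^ 3 / (3 * 0.707) :=
    div_le_div_of_nonneg_left (by positivity) (by norm_num) (by linarith)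
  unfold tt
  push_cast
  linarith

lemma ss_lt {n : ℕ} (hn : 1 ≤ n) : n * EE n 1 < (n + 1) * EE (n + 1) 1 := by
  have n1 : (1 : ℝ) ≤ n := by exact_mod_cast hn
  have x0 := x_pos n
  have h1 := tt_le n
  have h := drop_le hn
  unfold tt at h h1
  push_cast at h
  have h2 : (n + 1) * EE n 1 ≤ 1.6 := by linarith [pi_lt_d2]
  have h3 : EE n 1 ≤ 0.8 := by nlinarith
  have h4 : (n + 1) * EE n 1 * EE n 1 ≤ 1.6 * 0.8 := mul_le_mul h2 h3 x0.le (by norm_num)
  have h5 : (n + 1) * (EE n 1 ^ 3 / (3 * 0.707)) < EE n 1 := by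
    rw [← mul_div_assoc, div_lt_iff₀ (by norm_num)]
    nlinarith
  refine lt_of_mul_lt_mul_left ?_ (by positivity : (0 : ℝ) ≤ n + 2)
  nlinarith [mul_le_mul_of_nonneg_left h (by positivity : (0 : ℝ) ≤ n + 1)]

lemma ss_ge {n : ℕ} (hn : 1 ≤ n) : EE 1 1 ≤ n * EE n 1 := by
  induction n, hn using Nat.le_induction with
  | base => simp
  | succ n hn ih => push_cast; exact ih.trans (ss_lt hn).le

lemma exists_lim : ∃ κ, 0 < κ ∧ Tendsto tt atTop (𝓝 κ) := by
  have hb : BddBelow (range tt) := ⟨0, by rintro _ ⟨n, rfl⟩; exact (tt_pos n).le⟩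
  have t := tendsto_atTop_ciInf tt_anti.antitone hb
  refine ⟨_, lt_of_lt_of_le (x_pos 1) (ge_of_tendsto t ?_), t⟩
  filter_upwards [eventually_ge_atTop 1] with n hn
  have := ss_ge hn
  have := x_pos n
  unfold tt
  linarith

lemma le_lim {u : ℕ → ℝ} {a : ℝ} (h : Tendsto u atTop (𝓝 a)) {n : ℕ}
    (hs : ∀ m, n ≤ m → u m ≤ u (m + 1)) : u n ≤ a := by
  refine ge_of_tendsto h ?_
  filter_upwards [eventually_ge_atTop n] with m hm
  induction m, hm using Nat.le_induction with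
  | base => exact le_rfl
  | succ m hm ih => exact ih.trans (hs m hm)

lemma rate_upper {κ : ℝ} (h : Tendsto tt atTop (𝓝 κ)) {n : ℕ} (hn : 1 ≤ n) :
    tt n * (1 - 3 / (5 * n * (n + 1))) ≤ κ := by
  have n1 : (1 : ℝ) ≤ n := by exact_mod_cast hn
  have t0 := tt_pos n
  set B := tt n ^ 3 / (3 * 0.707) with hB
  have B0 : 0 < B := by positivity
  have z : Tendsto (fun m : ℕ => B / (2 * (m : ℝ) * (m + 1))) atTop (𝓝 0) :=
    tendsto_const_nhds.div_atTop ((tendsto_natCast_atTop_atTop.const_mul_atTop two_pos).atTop_mul_atTop₀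
      (tendsto_atTop_add_const_right _ _ tendsto_natCast_atTop_atTop))
  have k := le_lim (h.sub z) (n := n) fun m hm => by
    have m1 : (1 : ℝ) ≤ m := n1.trans (by exact_mod_cast hm)
    have h1 := drop_le (hn.trans hm)
    have h2 : EE m 1 ≤ tt n / (m + 1) := by
      rw [le_div_iff₀ (by positivity), mul_comm]; exact tt_anti.antitone hm
    have h3 : EE m 1 ^ 3 / (3 * 0.707) ≤ B / (m * (m + 1) * (m + 2)) := by
      calc _ ≤ (tt n / (m + 1)) ^ 3 / (3 * 0.707) := by have := x_pos m; gcongr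
        _ = B / (m + 1) ^ 3 := by rw [hB]; field_simp
        _ ≤ _ := div_le_div_of_nonneg_left B0.le (by positivity) (by nlinarith)
    have e : B / (m * (m + 1) * (m + 2))
        = B / (2 * (m : ℝ) * (m + 1)) - B / (2 * ((m : ℝ) + 1) * (m + 1 + 1)) := by
      field_simp; ring
    push_cast
    linarith
  have h4 : B / (2 * (n : ℝ) * (n + 1)) ≤ tt n * (3 / (5 * n * (n + 1))) := by
    have h5 : tt n ≤ 1.575 := by linarith [tt_le n, pi_lt_d2]
    have h6 : B ≤ tt n * (6 / 5) := by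
      rw [hB, div_le_iff₀ (by norm_num)]
      nlinarith [mul_le_mul h5 h5 t0.le (by norm_num)]
    calc _ ≤ tt n * (6 / 5) / (2 * (n : ℝ) * (n + 1)) := by gcongr
      _ = _ := by field_simp; ring
  linarith

lemma rate_lower {κ : ℝ} (k0 : 0 < κ) (h : Tendsto tt atTop (𝓝 κ)) {n : ℕ} (hn : 1 ≤ n) :
    κ + 8 * κ ^ 3 / (81 * π ^ 2) / (n + 2) ^ 2 ≤ tt n := by
  have hp := pi_pos
  have n1 : (1 : ℝ) ≤ n := by exact_mod_cast hn
  set D := 8 * κ ^ 3 / (81 * π ^ 2) with hD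
  have D0 : 0 < D := by positivity
  have z : Tendsto (fun m : ℕ => D / ((m : ℝ) + 2) ^ 2) atTop (𝓝 0) :=
    tendsto_const_nhds.div_atTop ((tendsto_pow_atTop two_ne_zero).comp
      (tendsto_atTop_add_const_right _ _ tendsto_natCast_atTop_atTop))
  have k := le_lim (z.sub h) (n := n) fun m hm => by
    have m1 : (1 : ℝ) ≤ m := n1.trans (by exact_mod_cast hm)
    have h1 := drop_lower m
    have h2 : κ / (m + 2) ≤ EE (m + 1) 1 := by
      have := tt_anti.antitone.le_of_tendsto h (m + 1)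
      unfold tt at this
      push_cast at this
      rw [div_le_iff₀ (by positivity)]; linarith
    have h3 : (2 : ℝ) / 3 ≤ (m + 1) / (m + 2) := by
      rw [div_le_div_iff₀ (by norm_num) (by positivity)]; linarith
    have h4 : 2 * D / (m + 2) ^ 3
        ≤ 2 / 3 * (((m : ℝ) + 1) / (m + 2) * (4 * EE (m + 1) 1 ^ 3 / (9 * π ^ 2))) := by
      calc _ = 2 / 3 * (2 / 3 * (4 * (κ / (m + 2)) ^ 3 / (9 * π ^ 2))) := by
            rw [hD]; field_simp; ring
        _ ≤ _ := by gcongr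
    have h5 : D / ((m : ℝ) + 2) ^ 2 - D / ((m : ℝ) + 1 + 2) ^ 2 ≤ 2 * D / (m + 2) ^ 3 := by
      have e : 2 * D / ((m : ℝ) + 2) ^ 3 - (D / ((m : ℝ) + 2) ^ 2 - D / ((m : ℝ) + 1 + 2) ^ 2)
          = D * (3 * m + 8) / ((m + 2) ^ 3 * (m + 3) ^ 2) := by
        rw [show (m : ℝ) + 1 + 2 = m + 3 by ring]; field_simp; ring
      have : 0 ≤ D * (3 * (m : ℝ) + 8) / ((m + 2) ^ 3 * (m + 3) ^ 2) := by positivity
      linarith
    unfold tt
    push_cast
    linarith
  linarith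

lemma Cn_tt {n : ℕ} (hn : 1 ≤ n) : n * P3.Cn n = π * (n + 1) / (2 * tt n) := by
  have := x_pos n
  rw [Cn_eq hn, tt]
  field_simp

lemma Cn_ss {n : ℕ} (hn : 1 ≤ n) : P3.Cn n = π / (2 * (n * EE n 1)) := by
  have := x_pos n
  have n0 : (0 : ℝ) < n := by exact_mod_cast hn
  rw [← mul_div_cancel_left₀ (P3.Cn n) n0.ne', Cn_eq hn]
  field_simp

lemma tendsto_C {κ : ℝ} (k0 : 0 < κ) (h : Tendsto tt atTop (𝓝 κ)) :
    Tendsto P3.Cn atTop (𝓝 (π / (2 * κ))) := by
  have t := ((h.mul (tendsto_natCast_div_add_atTop (1 : ℝ))).const_mul 2).inv₀ (by positivity)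
  rw [mul_one] at t
  refine (t.const_mul π).congr' ?_
  filter_upwards [eventually_ge_atTop 1] with n hn
  rw [Cn_ss hn, tt, div_eq_mul_inv π]
  congr 3
  field_simp

theorem main :
    (∀ n : ℕ, 1 ≤ n → n * P3.Cn n / (n + 1) < (n + 1) * P3.Cn (n + 1) / (n + 2)) ∧
    (∀ n : ℕ, 1 ≤ n → P3.Cn (n + 1) < P3.Cn n) ∧
    Tendsto P3.Cn atTop (𝓝 P3.C) ∧
    ∀ n : ℕ, 1 ≤ n → (n + 1) * P3.C - 3 * P3.C / (5 * n) ≤ n * P3.Cn n ∧
      n * P3.Cn n ≤ (n + 1) * P3.C - 1 / (100 * P3.C ^ 2 * (n + 1)) := by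
  have hp := pi_pos
  obtain ⟨κ, k0, h⟩ := exists_lim
  have hC : P3.C = π / (2 * κ) := (tendsto_C k0 h).limsup_eq
  refine ⟨fun n hn => ?_, fun n hn => ?_, hC ▸ tendsto_C k0 h, fun n hn => ?_⟩
  · have e := Cn_tt (n := n + 1) (by omega)
    push_cast at e
    have := tt_pos n
    have := tt_pos (n + 1)
    rw [Cn_tt hn, e]
    calc _ = π / (2 * tt n) := by field_simp
      _ < π / (2 * tt (n + 1)) :=
          div_lt_div_of_pos_left hp (by positivity) (by linarith [tt_anti (Nat.lt_succ_self n)])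
      _ = _ := by field_simp; ring
  · have n0 : (0 : ℝ) < n := by exact_mod_cast hn
    have := x_pos n
    rw [Cn_ss hn, Cn_ss (n := n + 1) (by omega)]
    push_cast
    exact div_lt_div_of_pos_left hp (by positivity) (by linarith [ss_lt hn])
  · have n1 : (1 : ℝ) ≤ n := by exact_mod_cast hn
    have t0 := tt_pos n
    rw [Cn_tt hn, hC]
    constructor
    · have h1 := rate_upper h hn
      calc _ = π * (n + 1) / (2 * κ * tt n) * (tt n * (1 - 3 / (5 * n * (n + 1)))) := by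
            field_simp
        _ ≤ π * (n + 1) / (2 * κ * tt n) * κ := by gcongr
        _ = _ := by field_simp
    · have h1 := rate_lower k0 h hn
      have h2 : 8 * κ ^ 3 / (81 * π ^ 2) / (n + 2) ^ 2 ≤ tt n - κ := by linarith
      have h3 := tt_le n
      rw [le_sub_comm]
      calc _ = (n + 1) / κ * (8 * κ ^ 3 / (81 * π ^ 2) / (200 / 81 * (n + 1) ^ 2)) := by
            field_simp; ring
        _ ≤ (n + 1) / κ * (8 * κ ^ 3 / (81 * π ^ 2) / (n + 2) ^ 2) := by
            gcongr; nlinarith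
        _ ≤ (n + 1) / κ * (tt n - κ) := by gcongr
        _ = π * (n + 1) / (2 * κ * (π / 2)) * (tt n - κ) := by field_simp
        _ ≤ π * (n + 1) / (2 * κ * tt n) * (tt n - κ) := by
            have : 0 ≤ tt n - κ := le_trans (by positivity) h2
            gcongr
        _ = _ := by field_simp

end Pool.Agent.Lib.MP_f9c8ff_an.Mo
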