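import Pool.Agent.Lib.MP_f9c8ff_an.Mo.Key

/-! The homogeneity relation and the behaviour of the minimum when a pole moves. -/

namespace Pool.Agent.Lib.MP_f9c8ff_an.Mo

open Real MeasureTheory Polynomial Set Filter Topology

theorem Ext.hom {M : ℕ} {r : ℝ} {Y : Finset ℝ} (h : Ext (M + 1) r Y) (hr : 0 < r) :
    2 * ((M + 1) * gg (M + 1) r (QY Y) 1 + r * gg (M + 1) r (QY Y) r) = EE (M + 1) r := by
  set Q := QY Y with hQ
  have hA : Adm (M + 1) Q := h.adm
  set R : ℝ[X] := Q + (2 : ℝ) • (X * derivative Q) with hR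
  have hRd : R.natDegree ≤ M + 1 := (natDegree_add_le _ _).trans (max_le hA.1
    ((natDegree_smul_le _ _).trans (natDegree_mul_le.trans (by
      have := natDegree_derivative_le Q
      have := hA.1
      rw [natDegree_X]; omega))))
  have hRc : R.coeff (M + 1) = 1 + 2 * (M + 1) := by
    rw [hR, coeff_add, coeff_smul, coeff_X_mul, coeff_derivative, hA.2]; simp
  set G : ℝ → ℝ := fun y => y * |Q.eval (y ^ 2)| / wt (M + 1) r y with hG
  set G' : ℝ → ℝ := fun y => sg (Q.eval (y ^ 2)) * R.eval (y ^ 2) / wt (M + 1) r y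
    - (2 * (M + 1) + 2) * (|Q.eval (y ^ 2)| / wt (M + 1) r y)
    + 2 * (M + 1) * (1 / (y ^ 2 + 1 ^ 2) * |Q.eval (y ^ 2)| / wt (M + 1) r y)
    + 2 * r * (r / (y ^ 2 + r ^ 2) * |Q.eval (y ^ 2)| / wt (M + 1) r y) with hG'
  have i1 := intg_sg hr Q hRd
  have i2 := (intg_abs hr hA.1).const_mul (2 * ((M : ℝ) + 1) + 2)
  have i3 := (intg_gg hr hA.1 one_pos).const_mul (2 * ((M : ℝ) + 1))
  have i4 := (intg_gg hr hA.1 hr).const_mul (2 * r)
  have hi : IntegrableOn G' (Ioi 0) := ((i1.sub i2).add i3).add i4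
  have qc : Continuous fun y : ℝ => Q.eval (y ^ 2) := Q.continuous.comp (continuous_pow 2)
  have hc : Continuous G :=
    (continuous_id.mul qc.abs).div (by unfold wt; fun_prop) fun y => (wt_pos _ hr y).ne'
  have hd : ∀ y, Q.eval (y ^ 2) ≠ 0 → HasDerivAt G (G' y) y := by
    intro y hy
    have ev : ∀ᶠ t in 𝓝 y, |Q.eval (t ^ 2)| = sg (Q.eval (y ^ 2)) * Q.eval (t ^ 2) := by
      rcases hy.lt_or_gt with h1 | h1
      · filter_upwards [qc.continuousAt.eventually_lt_const h1] with t ht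
        rw [sg, if_neg (not_le.mpr h1), abs_of_neg ht]; ring
      · filter_upwards [qc.continuousAt.eventually_const_lt h1] with t ht
        rw [sg, if_pos h1.le, abs_of_pos ht]; ring
    have d1 : HasDerivAt (fun t : ℝ => Q.eval (t ^ 2))
        ((derivative Q).eval (y ^ 2) * (2 * y)) y := by
      have := (Q.hasDerivAt (y ^ 2)).comp y (hasDerivAt_pow 2 y)
      refine HasDerivAt.congr_deriv this ?_
      simp
    have d2 : HasDerivAt (wt (M + 1) r) (((M : ℝ) + 1) * (1 + y ^ 2) ^ M * (2 * y) * (y ^ 2 + r ^ 2)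
        + (1 + y ^ 2) ^ (M + 1) * (2 * y)) y := by
      have := (((hasDerivAt_pow 2 y).const_add 1).pow (M + 1)).mul
        ((hasDerivAt_pow 2 y).add_const (r ^ 2))
      refine HasDerivAt.congr_deriv this ?_
      simp
    have d3 := ((hasDerivAt_id' y).mul (d1.const_mul (sg (Q.eval (y ^ 2))))).div d2
      (wt_pos _ hr y).ne'
    refine (d3.congr_deriv ?_).congr_of_eventuallyEq (ev.mono fun t ht => ?_)
    · simp only [hG', hR, ← sg_mul, eval_add, eval_smul, eval_mul, eval_X, smul_eq_mul,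
        Pi.mul_apply, wt]
      have : y ^ 2 + r ^ 2 ≠ 0 := by positivity
      have : y ^ 2 + 1 ≠ 0 := by positivity
      have : 1 + y ^ 2 ≠ 0 := by positivity
      field_simp
      ring
    · simp only [hG, ht, Pi.div_apply, Pi.mul_apply]
  have h1 : ∀ b, 0 ≤ b → ∫ y in (0 : ℝ)..b, G' y = G b := fun b hb => by
    rw [integral_eq_of_hasDerivAt_off_countable_of_le G G' hb (fin_zero hA.ne_zero).countable
      hc.continuousOn (fun y hy => hd y hy.2)
      ((intervalIntegrable_iff_integrableOn_Ioc_of_le hb).mpr (hi.mono_set Ioc_subset_Ioi_self))]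
    simp [hG]
  have h2 : Tendsto G atTop (𝓝 0) := by
    have t0 : Tendsto (fun b : ℝ => cs (M + 1) Q / b) atTop (𝓝 0) :=
      tendsto_const_nhds.div_atTop tendsto_id
    refine squeeze_zero' ?_ ?_ t0 <;> filter_upwards [eventually_gt_atTop 0] with b hb
    · exact div_nonneg (by positivity) (wt_pos _ hr b).le
    · have := eval_le hA.1 (sq_nonneg b)
      have c0 := cs_nonneg (M + 1) Q
      simp only [hG]
      rw [div_le_div_iff₀ (wt_pos _ hr b) hb, wt]
      have p : 0 ≤ cs (M + 1) Q * (1 + b ^ 2) ^ (M + 1) := by positivity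
      nlinarith [mul_le_mul_of_nonneg_left this (sq_nonneg b), mul_nonneg p (sq_nonneg r)]
  have h3 : ∫ y in Ioi (0 : ℝ), G' y = 0 :=
    tendsto_nhds_unique (intervalIntegral_tendsto_integral_Ioi 0 hi tendsto_id)
      (h2.congr' ((eventually_ge_atTop 0).mono fun b hb => (h1 b hb).symm))
  simp only [hG'] at h3
  rw [integral_add (by exact (i1.sub i2).add i3) i4, integral_add (by exact i1.sub i2) i3,
    integral_sub i1 i2, integral_const_mul, integral_const_mul, integral_const_mul, h.orth R hRd, hRc] at h3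
  have hv := h.val
  unfold II at hv
  rw [hv] at h3
  unfold gg
  linarith

lemma Ext.pert {N : ℕ} {r d : ℝ} {Y : Finset ℝ} (h : Ext N r Y) (hr : 0 < r) (hd : |d| ≤ r / 2) :
    EE N (r + d) ≤ EE N r * (1 + 25 * d ^ 2 / r ^ 2) - 2 * d * gg N r (QY Y) r := by
  obtain ⟨d1, d2⟩ := abs_le.mp hd
  have hs : 0 < r + d := by linarith
  have hA := h.adm
  refine (EE_le hs hA).trans ?_
  have i1 := (intg_abs hr hA.1).mul_const (1 + 25 * d ^ 2 / r ^ 2)
  have i2 := (intg_gg hr hA.1 hr).const_mul (2 * d)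
  rw [← h.val, II, II, gg, ← integral_mul_const, ← integral_const_mul, ← integral_sub i1 i2]
  refine integral_mono (intg_abs hs hA.1) (i1.sub i2) fun y => ?_
  have p1 : 0 < y ^ 2 + r ^ 2 := by positivity
  have p2 : 0 < y ^ 2 + (r + d) ^ 2 := by positivity
  have k : (y ^ 2 + r ^ 2) / (y ^ 2 + (r + d) ^ 2)
      ≤ 1 + 25 * d ^ 2 / r ^ 2 - 2 * d * (r / (y ^ 2 + r ^ 2)) := by
    have e : (y ^ 2 + r ^ 2) / (y ^ 2 + (r + d) ^ 2) = 1 - 2 * d * (r / (y ^ 2 + r ^ 2))
        - d ^ 2 / (y ^ 2 + r ^ 2)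
        + d ^ 2 * (2 * r + d) ^ 2 / ((y ^ 2 + r ^ 2) * (y ^ 2 + (r + d) ^ 2)) := by
      field_simp; ring
    have q1 : 0 ≤ d ^ 2 / (y ^ 2 + r ^ 2) := by positivity
    have q2 : d ^ 2 * (2 * r + d) ^ 2 / ((y ^ 2 + r ^ 2) * (y ^ 2 + (r + d) ^ 2))
        ≤ 25 * d ^ 2 / r ^ 2 := by
      rw [div_le_div_iff₀ (mul_pos p1 p2) (by positivity)]
      have a1 : (2 * r + d) ^ 2 ≤ 25 * (y ^ 2 + (r + d) ^ 2) := by nlinarith [sq_nonneg y]
      have a2 : r ^ 2 ≤ y ^ 2 + r ^ 2 := by nlinarith [sq_nonneg y]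
      have a3 := mul_le_mul a1 a2 (sq_nonneg r) (by positivity)
      nlinarith [mul_le_mul_of_nonneg_left a3 (sq_nonneg d)]
    linarith
  have k2 := mul_le_mul_of_nonneg_left k
    (div_nonneg (abs_nonneg ((QY Y).eval (y ^ 2))) (wt_pos N hr y).le)
  refine le_trans (le_of_eq ?_) (k2.trans (le_of_eq ?_))
  · unfold wt; field_simp
  · ring

lemma Ext.small {M : ℕ} {A r : ℝ} {Y : Finset ℝ} (h : Ext (M + 1) r Y) (hr : 0 < r)
    (hr1 : r ≤ 1 / 3) (hA : ∀ Q : ℝ[X], Q.natDegree ≤ M → cs M Q ≤ A * II M 1 Q) :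
    EE M 1 * (1 - 2 * π * A * r) ≤ EE (M + 1) r := by
  classical
  have hp := pi_pos
  have E1 := h.lt_pi hr (by omega)
  have E0 := EE_pos (M + 1) hr (by linarith)
  obtain ⟨z, hz, hzr⟩ : ∃ z ∈ Y, z ^ 2 ≤ 3 * r ^ 2 := by
    obtain ⟨z, hz, hh⟩ := ph_small hr Y (Finset.card_pos.mp (by rw [h.card]; omega))
    have ht := h.th_r hr
    unfold th at ht
    have h1 : arctan (z / r) ≤ π / 3 := by
      rcases hh with hh | hh
      · nlinarith [mul_pos E0 hr]
      · obtain ⟨b, hb⟩ := Y.finite_toSet.bddAbove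
        have := hh b hb
        have := arctan_lt_pi_div_two (b / r)
        nlinarith
    have h2 : z / r ≤ √3 := by
      rw [← arctan_strictMono.le_iff_le, arctan_sqrt_three]; exact h1
    refine ⟨z, hz, ?_⟩
    rw [div_le_iff₀ hr] at h2
    have := pow_le_pow_left₀ (h.pos z hz).le h2 2
    rwa [mul_pow, sq_sqrt (by norm_num)] at this
  set P := QY (Y.erase z) with hP
  have hPA : Adm M P := adm_of (QY_monic _) (by
    rw [QY_deg, Finset.card_erase_of_mem hz, h.card]; simp)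
  have hQ : QY Y = P * (X - C (z ^ 2)) := by
    rw [hP, QY, QY, Finset.prod_erase_mul _ _ hz]
  have e1 : P * (X + C (r ^ 2)) = QY Y + (z ^ 2 + r ^ 2) • P := by
    rw [hQ, smul_eq_C_mul, C_add]; ring
  have hP1 : P.natDegree ≤ M + 1 := hPA.1.trans (Nat.le_succ M)
  have h1 := II_add_le hr h.adm.1 ((natDegree_smul_le (z ^ 2 + r ^ 2) P).trans hP1)
  rw [← e1, II_mul M hr, II_smul, h.val, abs_of_pos (by positivity)] at h1
  have hcs : cs (M + 1) P = cs M P := by
    rw [cs, Finset.sum_range_succ, coeff_eq_zero_of_natDegree_lt (Nat.lt_succ_of_le hPA.1)]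
    simp [cs]
  have h2 := II_le_cs hr hP1
  rw [hcs] at h2
  have h3 := hA P hPA.1
  have h4 := EE_le one_pos hPA
  have h5 : II (M + 1) r P * r ≤ A * II M 1 P * (π / 2) := by
    calc _ ≤ cs M P * (π / (2 * r)) * r := mul_le_mul_of_nonneg_right h2 hr.le
      _ = cs M P * (π / 2) := by field_simp
      _ ≤ _ := mul_le_mul_of_nonneg_right h3 (by positivity)
  have h6 := II_nonneg (M + 1) hr P
  have h7 : II M 1 P * (1 - 2 * π * A * r) ≤ EE (M + 1) r := by
    nlinarith [mul_le_mul_of_nonneg_right hzr h6, mul_le_mul_of_nonneg_left h5 hr.le]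
  by_cases hc : 0 ≤ 1 - 2 * π * A * r
  · exact (mul_le_mul_of_nonneg_right h4 hc).trans h7
  · nlinarith [EE_pos M one_pos le_rfl]

end Pool.Agent.Lib.MP_f9c8ff_an.Mo
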