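import Mathlib

/-! Partial fractions of the tangent and three lemmas on real polynomials. -/

namespace Pool.Agent.Lib.MP_f9c8ff_an.Mo

open Real Polynomial Set Filter Topology

lemma hs_congr {f g : ℕ → ℝ} {a b : ℝ} (h : HasSum f a) (hf : ∀ n, g n = f n) (ha : b = a) :
    HasSum g b := by
  rw [funext hf, ha]; exact h

lemma hasSum_cot {t : ℝ} (h0 : 0 < t) (h1 : t < 1) :
    HasSum (fun n : ℕ => 2 * t / (t ^ 2 - ((n : ℝ) + 1) ^ 2)) (π * cot (π * t) - 1 / t) := by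
  have hz : (t : ℂ) ∈ Complex.integerComplement := by
    rintro ⟨n, hn⟩
    have h2 : (n : ℝ) = t := by exact_mod_cast hn
    rw [← h2] at h0 h1
    have h3 : 0 < n := by exact_mod_cast h0
    have h4 : n < 1 := by exact_mod_cast h1
    omega
  have h := (summable_cotTerm hz).hasSum
  rw [← cot_series_rep' hz] at h
  rw [← Complex.hasSum_ofReal]
  convert h using 1
  · ext n
    rw [cotTerm_identity hz]
    push_cast
    rw [mul_one_div]
    congr 1
    ring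
  · push_cast
    rfl

lemma hasSum_tan0 {t : ℝ} (h0 : 0 < t) (h1 : t < 1 / 2) :
    HasSum (fun j : ℕ => 2 * t / (((j : ℝ) + 1 / 2) ^ 2 - t ^ 2)) (π * tan (π * t)) := by
  have hp := pi_pos
  have ha := hasSum_cot h0 (by linarith)
  have hb := (hasSum_cot (t := 2 * t) (by linarith) (by linarith)).mul_left 2
  set b : ℕ → ℝ := fun m => 2 * (2 * (2 * t) / ((2 * t) ^ 2 - ((m : ℝ) + 1) ^ 2)) with hbd
  have he : Summable fun j : ℕ => b (2 * j) :=
    hb.summable.comp_injective fun i j h => by simpa using h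
  have ho : HasSum (fun n : ℕ => b (2 * n + 1)) (π * cot (π * t) - 1 / t) := by
    convert ha using 2 with n
    have : t ^ 2 - ((n : ℝ) + 1) ^ 2 ≠ 0 := by
      have : (0 : ℝ) ≤ n := n.cast_nonneg
      nlinarith
    simp only [hbd]
    push_cast
    rw [show (2 * t) ^ 2 - (2 * (n : ℝ) + 1 + 1) ^ 2 = 4 * (t ^ 2 - ((n : ℝ) + 1) ^ 2) by ring]
    field_simp
    ring
  have hs := (he.hasSum.even_add_odd ho).unique hb
  have hc : 0 < cos (π * t) := cos_pos_of_mem_Ioo ⟨by nlinarith, by nlinarith⟩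
  have hsn : 0 < sin (π * t) := sin_pos_of_pos_of_lt_pi (by positivity) (by nlinarith)
  have e : ∑' j, b (2 * j) = -(π * tan (π * t)) := by
    rw [← eq_sub_iff_add_eq] at hs
    rw [hs, show π * (2 * t) = 2 * (π * t) by ring, cot_eq_cos_div_sin, cot_eq_cos_div_sin,
      tan_eq_sin_div_cos, cos_two_mul', sin_two_mul]
    field_simp
    ring
  have h := he.hasSum.neg
  rw [e, neg_neg] at h
  refine hs_congr h (fun j => ?_) rfl
  have : ((j : ℝ) + 1 / 2) ^ 2 - t ^ 2 ≠ 0 := by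
    have : (0 : ℝ) ≤ j := j.cast_nonneg
    nlinarith
  simp only [hbd]
  push_cast
  rw [show (2 * t) ^ 2 - (2 * (j : ℝ) + 1) ^ 2 = -4 * (((j : ℝ) + 1 / 2) ^ 2 - t ^ 2) by ring]
  field_simp
  ring

/-- The positive zeros of `cos (E x)`. -/
noncomputable def lm (E : ℝ) (j : ℕ) : ℝ := ((j : ℝ) + 1 / 2) * π / E

lemma lm_mono {E : ℝ} (hE : 0 < E) {i j : ℕ} (h : i ≤ j) : lm E i ≤ lm E j := by
  unfold lm
  have := pi_pos
  gcongr

lemma lm_lt {E x : ℝ} (hE : 0 < E) (hx : E * x < π / 2) (j : ℕ) : x < lm E j := by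
  refine lt_of_lt_of_le ?_ (lm_mono hE (Nat.zero_le j))
  unfold lm
  rw [lt_div_iff₀ hE]
  push_cast
  linarith

lemma lm_sq {E x : ℝ} (hE : 0 < E) (h0 : 0 ≤ x) (hx : E * x < π / 2) (j : ℕ) :
    0 < lm E j ^ 2 - x ^ 2 := by
  have := lm_lt hE hx j
  nlinarith

lemma hasSum_tan {E x : ℝ} (hE : 0 < E) (h0 : 0 < x) (hx : E * x < π / 2) :
    HasSum (fun j : ℕ => 2 / E / (lm E j ^ 2 - x ^ 2)) (tan (E * x) / x) := by
  have hp := pi_pos
  have h := (hasSum_tan0 (t := E * x / π) (by positivity)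
    (by rw [div_lt_iff₀ hp]; linarith)).mul_left (1 / (π * x))
  refine hs_congr h (fun j => ?_) ?_
  · have h1 := (lm_sq hE h0.le hx j).ne'
    have e : ((j : ℝ) + 1 / 2) ^ 2 - (E * x / π) ^ 2 = (E / π) ^ 2 * (lm E j ^ 2 - x ^ 2) := by
      unfold lm; field_simp
    rw [e]
    field_simp
  · rw [show π * (E * x / π) = E * x by field_simp]
    field_simp

lemma anti_term {E : ℝ} (hE : 0 < E) (j : ℕ) {a b : ℝ} (ha : 0 < a) (hab : a ≤ b)
    (hb : E * b < π / 2) :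
    cos (E * b) / ((lm E j ^ 2 - b ^ 2) * (lm E 1 ^ 2 - b ^ 2))
      ≤ cos (E * a) / ((lm E j ^ 2 - a ^ 2) * (lm E 1 ^ 2 - a ^ 2)) := by
  have hx : ∀ x ∈ Icc a b, 0 < x ∧ E * x < π / 2 := fun x hx =>
    ⟨ha.trans_le hx.1, lt_of_le_of_lt (mul_le_mul_of_nonneg_left hx.2 hE.le) hb⟩
  have hd : ∀ x ∈ Icc a b, HasDerivAt
      (fun x => cos (E * x) / ((lm E j ^ 2 - x ^ 2) * (lm E 1 ^ 2 - x ^ 2)))
      (cos (E * x) / ((lm E j ^ 2 - x ^ 2) * (lm E 1 ^ 2 - x ^ 2)) *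
        (2 * x / (lm E j ^ 2 - x ^ 2) + 2 * x / (lm E 1 ^ 2 - x ^ 2) - E * tan (E * x))) x := by
    intro x hx'
    obtain ⟨h0, h1⟩ := hx x hx'
    have p1 := (lm_sq hE h0.le h1 j).ne'
    have p2 := (lm_sq hE h0.le h1 1).ne'
    have hc : 0 < cos (E * x) := cos_pos_of_mem_Ioo ⟨by nlinarith [pi_pos, mul_pos hE h0], h1⟩
    have h := (((hasDerivAt_id' x).const_mul E).cos).div
      (((hasDerivAt_pow 2 x).const_sub (lm E j ^ 2)).mul
        ((hasDerivAt_pow 2 x).const_sub (lm E 1 ^ 2))) (mul_ne_zero p1 p2)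
    refine HasDerivAt.congr_deriv h ?_
    simp only [Pi.mul_apply, tan_eq_sin_div_cos]
    field_simp
    ring
  refine antitoneOn_of_deriv_nonpos (convex_Icc a b)
    (fun x hx' => (hd x hx').continuousAt.continuousWithinAt)
    (fun x hx' => (hd x (interior_subset hx')).differentiableAt.differentiableWithinAt)
    (fun x hx' => ?_) (left_mem_Icc.mpr hab) (right_mem_Icc.mpr hab) hab
  rw [(hd x (interior_subset hx')).deriv]
  obtain ⟨h0, h1⟩ := hx x (interior_subset hx')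
  have p0 := lm_sq hE h0.le h1
  have hc : 0 < cos (E * x) := cos_pos_of_mem_Ioo ⟨by nlinarith [pi_pos, mul_pos hE h0], h1⟩
  refine mul_nonpos_of_nonneg_of_nonpos (div_pos hc (mul_pos (p0 j) (p0 1))).le ?_
  have hs := sum_le_hasSum (Finset.range 2) (fun i _ => (div_pos (by positivity) (p0 i)).le)
    (hasSum_tan hE h0 h1)
  simp only [Finset.sum_range_succ, Finset.sum_range_zero, zero_add] at hs
  have h2 : 2 / E / (lm E j ^ 2 - x ^ 2) ≤ 2 / E / (lm E 0 ^ 2 - x ^ 2) := by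
    refine div_le_div_of_nonneg_left (by positivity) (p0 0) ?_
    have := lm_mono hE (Nat.zero_le j)
    have := lm_lt hE h1 0
    nlinarith
  have h3 := mul_le_mul_of_nonneg_left ((add_le_add_left h2 _).trans hs) (mul_pos hE h0).le
  have p1 := (p0 j).ne'
  have p2 := (p0 1).ne'
  have e1 : E * x * (2 / E / (lm E j ^ 2 - x ^ 2) + 2 / E / (lm E 1 ^ 2 - x ^ 2))
      = 2 * x / (lm E j ^ 2 - x ^ 2) + 2 * x / (lm E 1 ^ 2 - x ^ 2) := by field_simp
  have e2 : E * x * (tan (E * x) / x) = E * tan (E * x) := by field_simp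
  rw [e1, e2] at h3
  linarith

lemma lim_poly (N : ℕ) {α β : ℝ} (h : α < β) (S : ℕ → ℝ[X]) (hS : ∀ m, (S m).natDegree ≤ N)
    (f : ℝ → ℝ) (hf : ∀ u ∈ Ioo α β, Tendsto (fun m => (S m).eval u) atTop (𝓝 (f u))) :
    ∃ R : ℝ[X], R.natDegree ≤ N ∧ ∀ u ∈ Ioo α β, R.eval u = f u := by
  classical
  obtain ⟨s, hs, hc⟩ := (Ioo_infinite h).exists_subset_card_eq (N + 1)
  have hinj : Set.InjOn (id : ℝ → ℝ) s := injOn_id _
  refine ⟨Lagrange.interpolate s id f, ?_, fun u hu => ?_⟩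
  · have := Lagrange.degree_interpolate_lt f hinj
    rw [hc] at this
    exact natDegree_le_iff_degree_le.mpr (Order.le_of_lt_succ (by exact_mod_cast this))
  · refine tendsto_nhds_unique ?_ (hf u hu)
    have e : ∀ m, (S m).eval u = ∑ i ∈ s, (S m).eval i * (Lagrange.basis s id i).eval u := by
      intro m
      have hd : (S m).degree < s.card := by
        rw [hc]
        exact lt_of_le_of_lt degree_le_natDegree (by exact_mod_cast Nat.lt_succ_of_le (hS m))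
      conv_lhs => rw [Lagrange.eq_interpolate hinj hd]
      simp [Lagrange.interpolate_apply, eval_finsetSum]
    simp only [e, Lagrange.interpolate_apply, eval_finsetSum, eval_mul, eval_C]
    exact tendsto_finsetSum _ fun i hi => (hf i (hs hi)).mul_const _

lemma dvd_of_bound (N : ℕ) (R : ℝ[X]) (K : ℝ)
    (h : ∀ᶠ x in 𝓝[<] (1 : ℝ), |R.eval (x ^ 2)| ≤ K * |x ^ 2 - 1| ^ N) : (X - C 1) ^ N ∣ R := by
  induction N generalizing R with
  | zero => simp
  | succ N ih =>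
    have h1 : R.eval 1 = 0 := by
      have c1 : Tendsto (fun x : ℝ => |R.eval (x ^ 2)|) (𝓝[<] 1) (𝓝 |R.eval (1 ^ 2)|) :=
        ((R.continuous.comp (continuous_pow 2)).abs.tendsto 1).mono_left nhdsWithin_le_nhds
      have c2 : Tendsto (fun x : ℝ => K * |x ^ 2 - 1| ^ (N + 1)) (𝓝[<] 1)
          (𝓝 (K * |1 ^ 2 - 1| ^ (N + 1))) :=
        (Continuous.tendsto (by fun_prop) 1).mono_left nhdsWithin_le_nhds
      simpa using le_of_tendsto_of_tendsto c1 c2 h
    obtain ⟨P, rfl⟩ := dvd_iff_isRoot.mpr h1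
    rw [pow_succ']
    refine mul_dvd_mul_left _ (ih P ?_)
    filter_upwards [h, Ioo_mem_nhdsLT (zero_lt_one' ℝ)] with x hx hx1
    have : 0 < |x ^ 2 - 1| := abs_pos.mpr (by nlinarith [hx1.1, hx1.2])
    rw [eval_mul, eval_sub, eval_X, eval_C, abs_mul, pow_succ' _ N, mul_left_comm] at hx
    exact le_of_mul_le_mul_left hx this

lemma eq_zero_of_bound {N : ℕ} {R : ℝ[X]} (hR : R.natDegree ≤ N) {K v : ℝ} (hv : v ≠ 1)
    (h0 : R.eval v = 0)
    (h : ∀ᶠ x in 𝓝[<] (1 : ℝ), |R.eval (x ^ 2)| ≤ K * |x ^ 2 - 1| ^ N) : R = 0 := by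
  by_contra hne
  have hc : IsCoprime ((X - C 1 : ℝ[X]) ^ N) (X - C v) :=
    (isCoprime_X_sub_C_of_isUnit_sub (sub_ne_zero.mpr hv.symm).isUnit).pow_left
  have hd := natDegree_le_of_dvd (hc.mul_dvd (dvd_of_bound N R K h) (dvd_iff_isRoot.mpr h0)) hne
  rw [((monic_X_sub_C _).pow N).natDegree_mul (monic_X_sub_C _), natDegree_pow,
    natDegree_X_sub_C, natDegree_X_sub_C] at hd
  omega

end Pool.Agent.Lib.MP_f9c8ff_an.Mo
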