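import Pool.Agent.Lib.MP_f9c8ff_an.Mo.Sgn
import Pool.Agent.Lib.MP_f9c8ff_an.Mo.Tan

/-! Comparison of the Poisson integrals of the extremal density at the two poles. -/

namespace Pool.Agent.Lib.MP_f9c8ff_an.Mo

open Real MeasureTheory Polynomial Set Filter Topology

/-- Poisson-type integral of the density `|Q(y²)| / wt`. -/
noncomputable def gg (N : ℕ) (r : ℝ) (Q : ℝ[X]) (x : ℝ) : ℝ :=
  ∫ y in Ioi (0 : ℝ), x / (y ^ 2 + x ^ 2) * |Q.eval (y ^ 2)| / wt N r y

/-- The node polynomial. -/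
noncomputable def nod (N : ℕ) (r : ℝ) : ℝ[X] := (X - C 1) ^ N * (X - C (r ^ 2))

/-- The total phase. -/
noncomputable def th (E : ℝ) (Y : Finset ℝ) (x : ℝ) : ℝ := E * x - π / 2 + ph Y x

lemma poi_le {x : ℝ} (hx : 0 < x) (y : ℝ) : |x / (y ^ 2 + x ^ 2)| ≤ 1 / x := by
  rw [abs_of_pos (by positivity), div_le_div_iff₀ (by positivity) hx]
  nlinarith [sq_nonneg y]

lemma intg_gg {N : ℕ} {r : ℝ} (hr : 0 < r) {Q : ℝ[X]} (hQ : Q.natDegree ≤ N) {x : ℝ} (hx : 0 < x) :
    IntegrableOn (fun y => x / (y ^ 2 + x ^ 2) * |Q.eval (y ^ 2)| / wt N r y) (Ioi 0) :=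
  intg_habs hr hQ (by fun_prop) _ (poi_le hx)

lemma gg_nonneg (N : ℕ) {r : ℝ} (hr : 0 < r) (Q : ℝ[X]) {x : ℝ} (hx : 0 < x) : 0 ≤ gg N r Q x :=
  integral_nonneg fun y => div_nonneg (by positivity) (wt_pos N hr y).le

lemma gg_cont {N : ℕ} {r : ℝ} (hr : 0 < r) {Q : ℝ[X]} (hQ : Q.natDegree ≤ N) {x : ℝ}
    (hx : 0 < x) : ContinuousAt (gg N r Q) x := by
  have hn : ∀ᶠ t in 𝓝 x, x / 2 < t := lt_mem_nhds (by linarith)
  refine continuousAt_of_dominated (bound := fun y => 2 / x * (|Q.eval (y ^ 2)| / wt N r y))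
    (hn.mono fun t ht => (intg_gg hr hQ (by linarith)).aestronglyMeasurable)
    (hn.mono fun t ht => ae_of_all _ fun y => ?_) ((intg_abs hr hQ).const_mul _)
    (ae_of_all _ fun y => ?_)
  · have ht0 : 0 < t := by linarith
    have hw := wt_pos N hr y
    rw [Real.norm_eq_abs, mul_div_assoc, abs_mul, abs_of_nonneg (div_nonneg (abs_nonneg _) hw.le)]
    refine mul_le_mul_of_nonneg_right ((poi_le ht0 y).trans ?_) (div_nonneg (abs_nonneg _) hw.le)
    rw [div_le_div_iff₀ ht0 hx]; linarith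
  · have : y ^ 2 + x ^ 2 ≠ 0 := by positivity
    have h1 : ContinuousAt (fun t : ℝ => t / (y ^ 2 + t ^ 2)) x :=
      continuousAt_id.div (g := fun t : ℝ => y ^ 2 + t ^ 2) (by fun_prop) this
    exact (h1.mul continuousAt_const).div_const _

lemma nod_monic (N : ℕ) (r : ℝ) : (nod N r).Monic :=
  ((monic_X_sub_C _).pow N).mul (monic_X_sub_C _)

lemma nod_deg (N : ℕ) (r : ℝ) : (nod N r).natDegree = N + 1 := by
  rw [nod, ((monic_X_sub_C _).pow N).natDegree_mul (monic_X_sub_C _), natDegree_pow,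
    natDegree_X_sub_C, natDegree_X_sub_C, mul_one]

lemma nod_eval (N : ℕ) (r u : ℝ) : (nod N r).eval u = (u - 1) ^ N * (u - r ^ 2) := by
  simp [nod]

lemma quo {N : ℕ} {D : ℝ[X]} (hD : D.natDegree ≤ N + 1) {a : ℝ} (h : D.eval a = 0) :
    ∃ R : ℝ[X], R.natDegree ≤ N ∧ R.coeff N = D.coeff (N + 1) ∧ D = (X - C a) * R := by
  obtain ⟨R, rfl⟩ := dvd_iff_isRoot.mpr h
  have hd : R.natDegree ≤ N := by
    by_cases h0 : R = 0
    · simp [h0]
    rw [(monic_X_sub_C a).natDegree_mul' h0, natDegree_X_sub_C] at hD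
    omega
  refine ⟨R, hd, ?_, rfl⟩
  rw [coeff_X_sub_C_mul, coeff_eq_zero_of_natDegree_lt (by omega : R.natDegree < N + 1)]
  ring

lemma Ext.th_eq {N : ℕ} {r : ℝ} {Y : Finset ℝ} (h : Ext N r Y) (hr : 0 < r) {x : ℝ} (hx : 0 < x) :
    Qt Y x * th (EE N r) Y x = (nod N r).eval (x ^ 2) * gg N r (QY Y) x := by
  set Q := QY Y with hQ
  set W : ℝ[X] := (X + C 1) ^ N * (X + C (r ^ 2)) with hW
  have hWm : W.Monic := ((monic_X_add_C _).pow N).mul (monic_X_add_C _)
  have hWd : W.natDegree = N + 1 := by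
    rw [hW, ((monic_X_add_C _).pow N).natDegree_mul (monic_X_add_C _), natDegree_pow,
      natDegree_X_add_C, natDegree_X_add_C, mul_one]
  have hWe : ∀ y : ℝ, W.eval (y ^ 2) = wt N r y := fun y => by
    simp only [hW, wt, eval_mul, eval_pow, eval_add, eval_X, eval_C]; ring
  have hA := h.adm
  obtain ⟨R, hR, hc, hD⟩ := quo (N := N)
    (D := Q.eval (-x ^ 2) • W - W.eval (-x ^ 2) • Q) (a := -x ^ 2)
    ((natDegree_sub_le _ _).trans (max_le ((natDegree_smul_le _ _).trans hWd.le)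
      ((natDegree_smul_le _ _).trans (hA.1.trans (Nat.le_succ N)))))
    (by simp only [eval_sub, eval_smul, smul_eq_mul]; ring)
  have hc1 : W.coeff (N + 1) = 1 := by rw [← hWd]; exact hWm
  rw [coeff_sub, coeff_smul, coeff_smul, hc1,
    coeff_eq_zero_of_natDegree_lt (Nat.lt_succ_of_le hA.1)] at hc
  simp only [smul_eq_mul, mul_one, mul_zero, sub_zero] at hc
  have pt : ∀ y : ℝ, Q.eval (-x ^ 2) * (sg (Q.eval (y ^ 2)) * (x / (y ^ 2 + x ^ 2)))
      = x * (sg (Q.eval (y ^ 2)) * R.eval (y ^ 2) / wt N r y)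
        + W.eval (-x ^ 2) * (x / (y ^ 2 + x ^ 2) * |Q.eval (y ^ 2)| / wt N r y) := fun y => by
    have e := congrArg (eval (y ^ 2)) hD
    simp only [eval_sub, eval_smul, smul_eq_mul, eval_mul, eval_X, eval_C, hWe] at e
    have hw := (wt_pos N hr y).ne'
    have : y ^ 2 + x ^ 2 ≠ 0 := by positivity
    rw [← sg_mul]
    field_simp
    linear_combination sg (Q.eval (y ^ 2)) * e
  have I := congrArg (fun f : ℝ → ℝ => ∫ y in Ioi (0 : ℝ), f y) (funext pt)
  rw [integral_add ((intg_sg hr Q hR).const_mul _) ((intg_gg hr hA.1 hx).const_mul _),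
    integral_const_mul, integral_const_mul, integral_const_mul, int_sg hx Y h.pos,
    h.orth R hR, hc, hQ, QY_neg, h.card] at I
  have e2 : W.eval (-x ^ 2) = -(-1) ^ N * (nod N r).eval (x ^ 2) := by
    simp only [hW, nod_eval, eval_mul, eval_pow, eval_add, eval_X, eval_C]
    rw [show -x ^ 2 + 1 = -1 * (x ^ 2 - 1) by ring, mul_pow]; ring
  rw [e2] at I
  have hs : ((-1 : ℝ)) ^ N ≠ 0 := pow_ne_zero _ (by norm_num)
  refine mul_left_cancel₀ hs ?_
  unfold th gg
  linear_combination -I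

lemma Ext.th_r {N : ℕ} {r : ℝ} {Y : Finset ℝ} (h : Ext N r Y) (hr : 0 < r) :
    th (EE N r) Y r = 0 := by
  have := h.th_eq hr hr
  rw [nod_eval, sub_self, mul_zero, zero_mul] at this
  exact (mul_eq_zero.mp this).resolve_left (Qt_pos Y hr).ne'

lemma Ext.th_one {N : ℕ} {r : ℝ} {Y : Finset ℝ} (h : Ext N r Y) (hr : 0 < r) (hN : 1 ≤ N) :
    th (EE N r) Y 1 = 0 := by
  have := h.th_eq hr one_pos
  rw [nod_eval, one_pow, sub_self, zero_pow (by omega), zero_mul, zero_mul] at this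
  exact (mul_eq_zero.mp this).resolve_left (Qt_pos Y one_pos).ne'

lemma Ext.lt_pi {N : ℕ} {r : ℝ} {Y : Finset ℝ} (h : Ext N r Y) (hr : 0 < r) (hN : 1 ≤ N) :
    EE N r * 1 < π / 2 := by
  have h1 := h.th_one hr hN
  have h2 := (ph_bound one_pos Y h.pos).2.1 (Finset.card_pos.mp (by rw [h.card]; omega))
  unfold th at h1
  linarith

lemma cos_pos' {E x : ℝ} (hE : 0 < E) (h0 : 0 < x) (hx : E * x < π / 2) : 0 < cos (E * x) :=
  cos_pos_of_mem_Ioo ⟨by nlinarith [pi_pos, mul_pos hE h0], hx⟩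

lemma Ext.rep {N : ℕ} {r : ℝ} {Y : Finset ℝ} (h : Ext N r Y) (hr : 0 < r) (hr1 : r < 1)
    (hN : 1 ≤ N) : ∃ c : ℕ → ℝ, (∀ j, 0 ≤ c j) ∧ ∀ x, 0 < x → EE N r * x < π / 2 →
      (nod N r).eval (x ^ 2) ≠ 0 →
      HasSum (fun j => c j / (lm (EE N r) j ^ 2 - x ^ 2))
        (gg N r (QY Y) x * sinc (th (EE N r) Y x) / cos (EE N r * x)) := by
  set E := EE N r with hE
  have E0 : 0 < E := EE_pos N hr hr1.le
  have E1 : E * 1 < π / 2 := h.lt_pi hr hN
  obtain ⟨U, W, hU, hW, hUW⟩ := exists_UW Y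
  rw [h.card] at hU hW
  have l1 : ∀ j, 1 < lm E j := lm_lt E0 E1
  have np : ∀ j, 0 < (nod N r).eval (lm E j ^ 2) := fun j => by
    have := l1 j
    rw [nod_eval]
    exact mul_pos (pow_pos (by nlinarith) _) (by nlinarith)
  set d : ℕ → ℝ := fun j => W.eval (lm E j ^ 2) / (nod N r).eval (lm E j ^ 2) with hd
  have d0 : ∀ j, 0 ≤ d j := fun j => by
    have hx : 0 < lm E j := by linarith [l1 j]
    refine div_nonneg ?_ (np j).le
    rw [(hUW _ hx).2]
    exact mul_nonneg (mul_pos hx (Qt_pos Y hx)).le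
      (sin_nonneg_of_nonneg_of_le_pi (ph_bound hx Y h.pos).1 (ph_le_pi hx Y h.pos))
  obtain ⟨B, hB⟩ : BddAbove (range d) := by
    have t1 : Tendsto (lm E) atTop atTop :=
      ((tendsto_atTop_add_const_right _ _ tendsto_natCast_atTop_atTop).atTop_mul_const
        pi_pos).atTop_div_const E0
    have t2 := (div_tendsto_atTop_zero_of_degree_lt W (nod N r) (degree_lt_degree
      (by rw [nod_deg]; omega))).comp ((tendsto_pow_atTop two_ne_zero).comp t1)
    exact t2.bddAbove_range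
  have sm : ∀ x, 0 < x → E * x < π / 2 →
      Summable fun j => d j * (2 / E / (lm E j ^ 2 - x ^ 2)) := fun x h0 hx =>
    Summable.of_nonneg_of_le
      (fun j => mul_nonneg (d0 j) (div_pos (by positivity) (lm_sq E0 h0.le hx j)).le)
      (fun j => mul_le_mul_of_nonneg_right (hB ⟨j, rfl⟩)
        (div_pos (by positivity) (lm_sq E0 h0.le hx j)).le)
      ((hasSum_tan E0 h0 hx).summable.mul_left B)
  set m : ℝ → ℝ := fun x => ∑' j, d j * (2 / E / (lm E j ^ 2 - x ^ 2)) with hm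
  have hq : ∀ j, ∃ R : ℝ[X], R.natDegree ≤ N ∧
      W - d j • nod N r = (X - C (lm E j ^ 2)) * R := fun j => by
    obtain ⟨R, h1, -, h2⟩ := quo (N := N) (D := W - d j • nod N r) (a := lm E j ^ 2)
      ((natDegree_sub_le _ _).trans (max_le (by omega)
        ((natDegree_smul_le _ _).trans (nod_deg N r).le)))
      (by rw [eval_sub, eval_smul, smul_eq_mul, hd, div_mul_cancel₀ _ (np j).ne', sub_self])
    exact ⟨R, h1, h2⟩
  choose R hR hRe using hq
  have sq : ∀ u ∈ Ioo (0 : ℝ) (lm E 0 ^ 2), 0 < √u ∧ E * √u < π / 2 ∧ √u ^ 2 = u := by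
    intro u hu
    refine ⟨sqrt_pos.mpr hu.1, ?_, sq_sqrt hu.1.le⟩
    have h1 : √u < lm E 0 := (sqrt_lt' (by linarith [l1 0])).mpr hu.2
    unfold lm at h1
    rw [lt_div_iff₀ E0] at h1
    push_cast at h1
    linarith
  obtain ⟨P, hP, hPe⟩ := lim_poly N (α := 0) (β := lm E 0 ^ 2) (by nlinarith [l1 0])
    (fun k => -U - ∑ j ∈ Finset.range k, (2 / E) • R j)
    (fun k => (natDegree_sub_le _ _).trans (max_le (by simpa using hU)
      (natDegree_sum_le_of_forall_le _ _ fun j _ => (natDegree_smul_le _ _).trans (hR j))))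
    (fun u => -U.eval u + (W.eval u * (tan (E * √u) / √u) - (nod N r).eval u * m √u))
    (fun u hu => by
      obtain ⟨h0, h1, h2⟩ := sq u hu
      have s := (((hasSum_tan E0 h0 h1).mul_left (W.eval u)).sub
        ((sm _ h0 h1).hasSum.mul_left ((nod N r).eval u))).tendsto_sum_nat.const_add (-U.eval u)
      refine s.congr fun k => ?_
      rw [eval_sub, eval_neg, eval_finsetSum, sub_eq_add_neg, ← Finset.sum_neg_distrib]
      congr 1
      refine Finset.sum_congr rfl fun j _ => ?_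
      have e := congrArg (eval u) (hRe j)
      have p := (lm_sq E0 h0.le h1 j).ne'
      rw [h2] at p ⊢
      simp only [eval_sub, eval_smul, smul_eq_mul, eval_mul, eval_X, eval_C] at e ⊢
      field_simp
      linear_combination e)
  have hPx : ∀ x, 0 < x → E * x < π / 2 → P.eval (x ^ 2)
      = Qt Y x * sin (th E Y x) / cos (E * x) - (nod N r).eval (x ^ 2) * m x := fun x h0 hx => by
    have hc := (cos_pos' E0 h0 hx).ne'
    rw [hPe _ ⟨by positivity, by nlinarith [lm_sq E0 h0.le hx 0]⟩, sqrt_sq h0.le, (hUW x h0).1,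
      (hUW x h0).2, th, show E * x - π / 2 + ph Y x = E * x + ph Y x - π / 2 by ring,
      sin_sub_pi_div_two, cos_add, tan_eq_sin_div_cos]
    generalize cos (E * x) = a at hc ⊢
    generalize sin (E * x) = b
    field_simp
    ring
  have m0 : ∀ x, 0 < x → E * x < π / 2 → 0 ≤ m x := fun x h0 hx => tsum_nonneg fun j =>
    mul_nonneg (d0 j) (div_pos (by positivity) (lm_sq E0 h0.le hx j)).le
  have P0 : P = 0 := by
    refine eq_zero_of_bound hP (K := (gg N r (QY Y) 1 + 1) / cos (E * 1) + m 1) (v := r ^ 2)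
      (by nlinarith) ?_ ?_
    · rw [hPx r hr (by nlinarith), h.th_r hr, nod_eval]; simp
    · have hg : ∀ᶠ x in 𝓝[<] (1 : ℝ), gg N r (QY Y) x < gg N r (QY Y) 1 + 1 :=
        nhdsWithin_le_nhds ((gg_cont hr h.adm.1 one_pos).eventually_lt_const (lt_add_one _))
      filter_upwards [hg, Ioo_mem_nhdsLT (zero_lt_one' ℝ)] with x hx ⟨h0, h1⟩
      have hx2 : E * x < π / 2 := by nlinarith
      have hc := cos_pos' E0 h0 hx2
      have hc1 := cos_pos' E0 one_pos E1
      have hcc : cos (E * 1) ≤ cos (E * x) :=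
        cos_le_cos_of_nonneg_of_le_pi (by positivity) (by linarith [pi_pos]) (by nlinarith)
      have hmm : m x ≤ m 1 := (sm x h0 hx2).tsum_le_tsum (fun j => mul_le_mul_of_nonneg_left
        (div_le_div_of_nonneg_left (by positivity) (lm_sq E0 one_pos.le E1 j) (by nlinarith))
        (d0 j)) (sm 1 one_pos E1)
      have hn : |(nod N r).eval (x ^ 2)| ≤ |x ^ 2 - 1| ^ N := by
        rw [nod_eval, abs_mul, abs_pow]
        refine mul_le_of_le_one_right (by positivity) (abs_le.mpr ⟨by nlinarith, by nlinarith⟩)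
      have g0 := gg_nonneg N hr (QY Y) h0
      have hs : |Qt Y x * sin (th E Y x)| ≤ |x ^ 2 - 1| ^ N * (gg N r (QY Y) 1 + 1) := by
        calc _ ≤ |Qt Y x * th E Y x| := by
              rw [abs_mul, abs_mul]
              exact mul_le_mul_of_nonneg_left abs_sin_le_abs (abs_nonneg _)
          _ ≤ _ := by
              rw [h.th_eq hr h0, abs_mul, abs_of_nonneg g0]
              exact mul_le_mul hn hx.le g0 (by positivity)
      rw [hPx x h0 hx2]
      refine (abs_sub _ _).trans ?_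
      rw [add_mul, abs_div, abs_of_pos hc, abs_mul (eval _ _), abs_of_nonneg (m0 x h0 hx2)]
      refine add_le_add ?_ ?_
      · rw [div_mul_eq_mul_div, mul_comm (_ + 1)]
        exact div_le_div₀ ((abs_nonneg _).trans hs) hs hc1 hcc
      · rw [mul_comm (m 1)]
        exact mul_le_mul hn hmm (m0 x h0 hx2) (by positivity)
  refine ⟨fun j => d j * (2 / E), fun j => mul_nonneg (d0 j) (by positivity),
    fun x h0 hx hn => hs_congr (sm x h0 hx).hasSum (fun j => mul_div_assoc _ _ _) ?_⟩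
  have e := hPx x h0 hx
  have e2 : sin (th E Y x) = th E Y x * sinc (th E Y x) := by
    by_cases h : th E Y x = 0
    · simp [h]
    · rw [sinc_of_ne_zero h]; field_simp
  rw [P0, eval_zero, e2, ← mul_assoc, h.th_eq hr h0] at e
  refine mul_left_cancel₀ hn ?_
  linear_combination -e

theorem Ext.ratio {N : ℕ} {r : ℝ} {Y : Finset ℝ} (h : Ext N r Y) (hr : 0 < r) (hr1 : r < 1)
    (hN : 1 ≤ N) :
    gg N r (QY Y) 1 * (lm (EE N r) 1 ^ 2 - r ^ 2) ≤ gg N r (QY Y) r * (lm (EE N r) 1 ^ 2 - 1) ∧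
    gg N r (QY Y) r * cos (EE N r) ≤ gg N r (QY Y) 1 * cos (EE N r * r) := by
  obtain ⟨c, c0, hc⟩ := h.rep hr hr1 hN
  set E := EE N r with hE
  have E0 : 0 < E := EE_pos N hr hr1.le
  have E1 : E * 1 < π / 2 := h.lt_pi hr hN
  set G : ℝ → ℝ := fun x => gg N r (QY Y) x * sinc (th E Y x) with hG
  have Gc : ∀ x, 0 < x → ContinuousAt G x := fun x hx =>
    (gg_cont hr h.adm.1 hx).mul (continuous_sinc.continuousAt.comp
      (((continuousAt_const.mul continuousAt_id).sub continuousAt_const).add (ph_cont Y hx)))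
  have G1 : G 1 = gg N r (QY Y) 1 := by simp only [hG, hE, h.th_one hr hN, sinc_zero, mul_one]
  have Gr : G r = gg N r (QY Y) r := by simp only [hG, hE, h.th_r hr, sinc_zero, mul_one]
  have key : ∀ t ∈ Ioo r 1, G t * (lm E 1 ^ 2 - (r * t) ^ 2) ≤ G (r * t) * (lm E 1 ^ 2 - t ^ 2) ∧
      G (r * t) * cos (E * t) ≤ G t * cos (E * (r * t)) := by
    intro t ⟨h1, h2⟩
    have t0 : 0 < t := hr.trans h1
    have a0 : 0 < r * t := mul_pos hr t0
    have ab : r * t ≤ t := by nlinarith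
    have hb : E * t < π / 2 := by nlinarith
    have ha : E * (r * t) < π / 2 := by nlinarith
    have sb := hc t t0 hb (by
      rw [nod_eval]; exact mul_ne_zero (pow_ne_zero _ (by nlinarith)) (by nlinarith))
    have rt : r * t < r := by nlinarith
    have sa := hc _ a0 ha (by
      rw [nod_eval]; exact mul_ne_zero (pow_ne_zero _ (by nlinarith)) (by nlinarith))
    have ca := cos_pos' E0 a0 ha
    have cb := cos_pos' E0 t0 hb
    have pa := lm_sq E0 a0.le ha
    have pb := lm_sq E0 t0.le hb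
    constructor
    · have := hasSum_le (fun j => ?_) (sb.mul_left (cos (E * t) / (lm E 1 ^ 2 - t ^ 2)))
        (sa.mul_left (cos (E * (r * t)) / (lm E 1 ^ 2 - (r * t) ^ 2)))
      · rw [div_mul_div_comm, div_mul_div_comm, mul_comm (cos (E * t)), mul_comm (cos (E * (r * t))),
          mul_div_mul_right _ _ cb.ne', mul_div_mul_right _ _ ca.ne',
          div_le_div_iff₀ (pb 1) (pa 1)] at this
        exact this
      · have := mul_le_mul_of_nonneg_left (anti_term E0 j a0 ab hb) (c0 j)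
        refine le_trans (le_of_eq ?_) (this.trans (le_of_eq ?_))
        · have := (pb j).ne'; have := (pb 1).ne'; field_simp
        · have := (pa j).ne'; have := (pa 1).ne'; field_simp
    · have := hasSum_le (fun j => div_le_div_of_nonneg_left (c0 j) (pb j) (by nlinarith)) sa sb
      rw [div_le_div_iff₀ ca cb] at this
      exact this
  have t1 : Tendsto G (𝓝[<] 1) (𝓝 (G 1)) := (Gc 1 one_pos).tendsto.mono_left nhdsWithin_le_nhds
  have t2 : Tendsto (fun t => G (r * t)) (𝓝[<] 1) (𝓝 (G r)) := by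
    have : Tendsto (fun t : ℝ => r * t) (𝓝 1) (𝓝 (r * 1)) := Continuous.tendsto (by fun_prop) 1
    rw [mul_one] at this
    exact ((Gc r hr).tendsto.comp this).mono_left nhdsWithin_le_nhds
  have tc : ∀ f : ℝ → ℝ, Continuous f → Tendsto f (𝓝[<] 1) (𝓝 (f 1)) := fun f hf =>
    (hf.tendsto 1).mono_left nhdsWithin_le_nhds
  have ev := (show ∀ᶠ t in 𝓝[<] (1 : ℝ), t ∈ Ioo r 1 from Ioo_mem_nhdsLT hr1).mono key
  have k1 := le_of_tendsto_of_tendsto
    (t1.mul (tc (fun t => lm E 1 ^ 2 - (r * t) ^ 2) (by fun_prop)))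
    (t2.mul (tc (fun t => lm E 1 ^ 2 - t ^ 2) (by fun_prop))) (ev.mono fun t ht => ht.1)
  have k2 := le_of_tendsto_of_tendsto
    (t2.mul (tc (fun t => cos (E * t)) (by fun_prop)))
    (t1.mul (tc (fun t => cos (E * (r * t))) (by fun_prop))) (ev.mono fun t ht => ht.2)
  rw [G1, Gr] at k1 k2
  simp only [mul_one, one_pow] at k1 k2
  exact ⟨k1, k2⟩

end Pool.Agent.Lib.MP_f9c8ff_an.Mo
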