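import Pool.Agent.Lib.MP_f9c8ff_an.Mo.Hom

/-! Two-sided bounds for the difference of consecutive normalised minima. -/

namespace Pool.Agent.Lib.MP_f9c8ff_an.Mo

open Real MeasureTheory Polynomial Set Filter Topology

lemma steps {f : ℝ → ℝ} {a b K δ : ℝ} (hab : a < b) (hδ : 0 < δ)
    (h : ∀ x d, a ≤ x → 0 < d → d ≤ δ → x + d ≤ b → f (x + d) ≤ f x + K * d ^ 2) : f b ≤ f a := by
  have t0 : Tendsto (fun m : ℕ => (b - a) / (m : ℝ)) atTop (𝓝 0) :=
    tendsto_const_div_atTop_nhds_zero_nat _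
  have t1 : Tendsto (fun m : ℕ => f a + K * (b - a) * ((b - a) / (m : ℝ))) atTop (𝓝 (f a)) := by
    simpa using (t0.const_mul (K * (b - a))).const_add (f a)
  refine ge_of_tendsto t1 ?_
  filter_upwards [t0.eventually_le_const hδ, eventually_gt_atTop 0] with m hm m0
  have m1 : (0 : ℝ) < m := by exact_mod_cast m0
  set d := (b - a) / (m : ℝ) with hd
  have d0 : 0 < d := div_pos (by linarith) m1
  have md : (m : ℝ) * d = b - a := by rw [hd]; field_simp
  have ind : ∀ k : ℕ, k ≤ m → f (a + k * d) ≤ f a + k * (K * d ^ 2) := by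
    intro k hk
    induction k with
    | zero => simp
    | succ k ih =>
      have h1 : ((k : ℝ) + 1) * d ≤ m * d :=
        mul_le_mul_of_nonneg_right (by exact_mod_cast hk) d0.le
      have h2 := h (a + k * d) d (by nlinarith [mul_nonneg k.cast_nonneg d0.le]) d0 hm
        (by linarith)
      have h3 := ih (by omega)
      push_cast
      rw [show a + ((k : ℝ) + 1) * d = a + k * d + d by ring]
      linarith
  have := ind m le_rfl
  rw [md, show a + (b - a) = b by ring] at this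
  rw [← md]
  linarith

lemma cos_sub_cos_le {a b : ℝ} (ha : 0 ≤ a) (hab : a ≤ b) : cos a - cos b ≤ (b ^ 2 - a ^ 2) / 2 := by
  rw [cos_sub_cos, show (a - b) / 2 = -((b - a) / 2) by ring, sin_neg]
  have h1 := abs_sin_le_abs (x := (a + b) / 2)
  have h2 := abs_sin_le_abs (x := (b - a) / 2)
  have h3 := mul_le_mul h1 h2 (abs_nonneg _) (abs_nonneg _)
  rw [← abs_mul, abs_of_nonneg (by linarith : 0 ≤ (a + b) / 2),
    abs_of_nonneg (by linarith : 0 ≤ (b - a) / 2)] at h3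
  nlinarith [le_abs_self (sin ((a + b) / 2) * sin ((b - a) / 2))]

lemma Ext.gap {M : ℕ} {r : ℝ} {Y : Finset ℝ} (h : Ext (M + 1) r Y) (hr : 0 < r) (hr1 : r ≤ 1) :
    EE (M + 1) r - 2 * (M + 1 + r) * gg (M + 1) r (QY Y) r
      ≤ -((M + 1) / (M + 2) * (4 * EE (M + 1) 1 ^ 3 / (9 * π ^ 2)) * (1 - r ^ 2)) ∧
    (EE M 1 < π / 2 → 2 * (M + 1 + r) * gg (M + 1) r (QY Y) r - EE (M + 1) r
      ≤ EE M 1 ^ 3 / (2 * cos (EE M 1)) * (1 - r ^ 2)) := by
  have hh := h.hom hr
  rcases hr1.eq_or_lt with rfl | hr1'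
  · constructor
    · linarith
    · intro; linarith
  obtain ⟨k1, k2⟩ := h.ratio hr hr1' (by omega)
  have hp := pi_pos
  have E1 := h.lt_pi hr (by omega)
  have E0 := EE_pos (M + 1) hr hr1
  have x0 := EE_pos (M + 1) one_pos le_rfl
  have xE := EE_one_le (M + 1) hr hr1
  have EX := EE_le_pred M hr
  have a0 := gg_nonneg (M + 1) hr (QY Y) one_pos
  have b0 := gg_nonneg (M + 1) hr (QY Y) hr
  have l1 := lm_lt E0 E1 1
  set E := EE (M + 1) r
  set x := EE (M + 1) 1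
  set X := EE M 1
  set a := gg (M + 1) r (QY Y) 1
  set b := gg (M + 1) r (QY Y) r
  have M0 : (0 : ℝ) ≤ M := M.cast_nonneg
  have r2 : 0 ≤ 1 - r ^ 2 := by nlinarith
  constructor
  · have hl : lm E 1 ^ 2 = 9 * π ^ 2 / (4 * E ^ 2) := by
      unfold lm; push_cast; field_simp; ring
    set L := lm E 1 ^ 2
    have L1 : 1 < L := by nlinarith
    have ab : a ≤ b := by
      by_contra hc
      nlinarith [mul_lt_mul_of_pos_right (not_le.mp hc) (by nlinarith : 0 < L - r ^ 2),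
        mul_nonneg b0 r2]
    have s1 : b * (1 - r ^ 2) ≤ (b - a) * L := by
      nlinarith [mul_nonneg (sub_nonneg.mpr ab) (sq_nonneg r)]
    have s2 : E ≤ 2 * (M + 2) * b := by nlinarith
    have s3 : E * (1 - r ^ 2) ≤ 2 * (M + 2) * ((b - a) * L) := by
      nlinarith [mul_le_mul_of_nonneg_right s2 r2,
        mul_le_mul_of_nonneg_left s1 (by positivity : (0 : ℝ) ≤ 2 * (M + 2))]
    have s4 : x ^ 3 ≤ E ^ 3 := pow_le_pow_left₀ x0.le xE 3
    have s5 : 4 * x ^ 3 / (9 * π ^ 2) * (1 - r ^ 2) ≤ 2 * (M + 2) * (b - a) := by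
      rw [hl] at s3
      have s6 := mul_le_mul_of_nonneg_right s3 (by positivity : 0 ≤ 4 * E ^ 2 / (9 * π ^ 2))
      calc _ ≤ 4 * E ^ 3 / (9 * π ^ 2) * (1 - r ^ 2) := by gcongr
        _ = E * (1 - r ^ 2) * (4 * E ^ 2 / (9 * π ^ 2)) := by ring
        _ ≤ _ := s6
        _ = _ := by field_simp
    have s7 := mul_le_mul_of_nonneg_left s5 (by positivity : (0 : ℝ) ≤ (M + 1) / (M + 2))
    have e : ((M : ℝ) + 1) / (M + 2) * (2 * (M + 2) * (b - a)) = 2 * (M + 1) * (b - a) := by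
      field_simp
    rw [e, ← mul_assoc] at s7
    linarith
  · intro hX
    have cX : 0 < cos X := cos_pos_of_mem_Ioo ⟨by linarith, hX⟩
    have X0 : 0 < X := E0.trans_le EX
    have cE : cos X ≤ cos E := cos_le_cos_of_nonneg_of_le_pi E0.le (by linarith) EX
    have c1 := cos_sub_cos_le (a := E * r) (b := E) (by positivity) (by nlinarith)
    have s1 : (b - a) * cos E ≤ a * (E ^ 2 * (1 - r ^ 2) / 2) := by
      nlinarith [mul_le_mul_of_nonneg_left c1 a0]
    have s2 : 2 * (M + 1) * a ≤ E := by nlinarith [mul_nonneg hr.le b0]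
    have s3 : 2 * (M + 1) * (b - a) * cos E ≤ E * (E ^ 2 * (1 - r ^ 2) / 2) := by
      nlinarith [mul_le_mul_of_nonneg_left s1 (by positivity : (0 : ℝ) ≤ 2 * (M + 1)),
        mul_le_mul_of_nonneg_right s2 (by positivity : 0 ≤ E ^ 2 * (1 - r ^ 2) / 2)]
    have s4 : 2 * (M + 1) * (b - a) ≤ X ^ 3 / (2 * cos X) * (1 - r ^ 2) := by
      rw [← le_div_iff₀ (cX.trans_le cE)] at s3
      refine s3.trans ?_
      calc _ = E ^ 3 / (2 * cos E) * (1 - r ^ 2) := by
            have := (cX.trans_le cE).ne'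
            field_simp
        _ ≤ _ := by gcongr
    linarith

theorem drop_lower (M : ℕ) :
    (M + 2) * EE (M + 1) 1 + 2 / 3 * ((M + 1) / (M + 2) * (4 * EE (M + 1) 1 ^ 3 / (9 * π ^ 2)))
      ≤ (M + 1) * EE M 1 := by
  set c := ((M : ℝ) + 1) / (M + 2) * (4 * EE (M + 1) 1 ^ 3 / (9 * π ^ 2)) with hc
  have c0 : 0 ≤ c := by have := EE_pos (M + 1) one_pos le_rfl; positivity
  have M0 : (0 : ℝ) ≤ M := M.cast_nonneg
  have t : Tendsto (fun a : ℝ => (M + 1 + a) * EE M 1 + c * (a - a ^ 3 / 3)) (𝓝[>] 0)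
      (𝓝 ((M + 1 + 0) * EE M 1 + c * (0 - 0 ^ 3 / 3))) :=
    (Continuous.tendsto (by fun_prop) 0).mono_left nhdsWithin_le_nhds
  have := ge_of_tendsto (b := (M + 2) * EE (M + 1) 1 + 2 / 3 * c) t ?_
  · simpa using this
  filter_upwards [Ioo_mem_nhdsGT (zero_lt_one' ℝ)] with a ⟨a0, a1⟩
  have s := steps (f := fun r => (M + 1 + r) * EE (M + 1) r + c * (r - r ^ 3 / 3))
    (K := (M + 2) * (EE M 1 * (25 / a ^ 2))) a1 (half_pos a0) fun x d h1 h2 h3 h4 => by
      have x0 : 0 < x := a0.trans_le h1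
      obtain ⟨Y, hY⟩ := exists_ext (M + 1) x0 (by linarith)
      have p := hY.pert (d := d) x0 (by rw [abs_of_pos h2]; linarith)
      have g := (hY.gap x0 (by linarith)).1
      have g0 := gg_nonneg (M + 1) x0 (QY Y) x0
      have E0 := EE_pos (M + 1) x0 (by linarith)
      have EX := EE_le_pred M x0
      have q : EE (M + 1) x * (25 * d ^ 2 / x ^ 2) ≤ EE M 1 * (25 / a ^ 2) * d ^ 2 := by
        calc _ = EE (M + 1) x * (25 / x ^ 2) * d ^ 2 := by ring
          _ ≤ _ := by have := EE_pos M one_pos le_rfl; gcongr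
      have q0 : 0 ≤ EE (M + 1) x * (25 * d ^ 2 / x ^ 2) := by positivity
      have q1 := mul_le_mul (by linarith : (M : ℝ) + 1 + (x + d) ≤ M + 2) q q0 (by positivity)
      have p1 := mul_le_mul_of_nonneg_left p (by linarith : (0 : ℝ) ≤ M + 1 + (x + d))
      rw [← hc] at g
      nlinarith [mul_le_mul_of_nonneg_left g h2.le, mul_nonneg g0 (sq_nonneg d),
        mul_nonneg c0 (mul_nonneg x0.le (sq_nonneg d)), mul_nonneg c0 (pow_nonneg h2.le 3)]
  have := mul_le_mul_of_nonneg_left (EE_le_pred M a0) (by linarith : (0 : ℝ) ≤ M + 1 + a)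
  linarith

theorem drop_upper (M : ℕ) (hX : EE M 1 < π / 2) :
    (M + 1) * EE M 1 ≤ (M + 2) * EE (M + 1) 1 + EE M 1 ^ 3 / (3 * cos (EE M 1)) := by
  obtain ⟨A, A0, hA⟩ := cs_le M
  have X0 := EE_pos M one_pos le_rfl
  have cX : 0 < cos (EE M 1) := cos_pos_of_mem_Ioo ⟨by linarith [pi_pos], hX⟩
  set c := EE M 1 ^ 3 / (2 * cos (EE M 1)) with hc
  have c0 : 0 ≤ c := by positivity
  have M0 : (0 : ℝ) ≤ M := M.cast_nonneg
  have t : Tendsto (fun a : ℝ => (M + 1 + a) * (EE M 1 * (1 - 2 * π * A * a))) (𝓝[>] 0)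
      (𝓝 ((M + 1 + 0) * (EE M 1 * (1 - 2 * π * A * 0)))) :=
    (Continuous.tendsto (by fun_prop) 0).mono_left nhdsWithin_le_nhds
  have := le_of_tendsto (b := (M + 2) * EE (M + 1) 1 + 2 / 3 * c) t ?_
  · have e : 2 / 3 * c = EE M 1 ^ 3 / (3 * cos (EE M 1)) := by rw [hc]; field_simp
    rw [e] at this
    simpa using this
  filter_upwards [Ioo_mem_nhdsGT (by norm_num : (0 : ℝ) < 1 / 3)] with a ⟨a0, a1⟩
  have s := steps (f := fun s => (M + 1 - s) * EE (M + 1) (-s) + c * (-s + s ^ 3 / 3))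
    (a := -1) (b := -a) (K := (M + 2) * (EE M 1 * (25 / a ^ 2)) + c) (by linarith) (half_pos a0)
    fun s d h1 h2 h3 h4 => by
      obtain ⟨x, rfl⟩ : ∃ x, s = -x := ⟨-s, by ring⟩
      have x0 : 0 < x := by linarith
      have xa : a ≤ x := by linarith
      obtain ⟨Y, hY⟩ := exists_ext (M + 1) x0 (by linarith)
      have p := hY.pert (d := -d) x0 (by rw [abs_neg, abs_of_pos h2]; linarith)
      have g := (hY.gap x0 (by linarith)).2 hX
      have g0 := gg_nonneg (M + 1) x0 (QY Y) x0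
      have E0 := EE_pos (M + 1) x0 (by linarith)
      have EX := EE_le_pred M x0
      have q : EE (M + 1) x * (25 * (-d) ^ 2 / x ^ 2) ≤ EE M 1 * (25 / a ^ 2) * d ^ 2 := by
        calc _ = EE (M + 1) x * (25 / x ^ 2) * d ^ 2 := by ring
          _ ≤ _ := by gcongr
      have q0 : 0 ≤ EE (M + 1) x * (25 * (-d) ^ 2 / x ^ 2) := by positivity
      have q1 := mul_le_mul (by linarith : (M : ℝ) + 1 + (x - d) ≤ M + 2) q q0 (by positivity)
      have p1 := mul_le_mul_of_nonneg_left p (by linarith : (0 : ℝ) ≤ M + 1 + (x - d))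
      rw [← hc] at g
      have d1 : d ≤ 1 := by linarith
      rw [neg_neg, show -(-x + d) = x + -d by ring]
      nlinarith [mul_le_mul_of_nonneg_left g h2.le, mul_nonneg g0 (sq_nonneg d),
        mul_nonneg c0 (mul_nonneg x0.le (sq_nonneg d)), mul_nonneg c0 (sq_nonneg d),
        mul_nonneg c0 (mul_nonneg (sub_nonneg.mpr d1) (sq_nonneg d))]
  obtain ⟨Y, hY⟩ := exists_ext (M + 1) a0 (by linarith)
  have h1 := mul_le_mul_of_nonneg_left (hY.small a0 a1.le hA) (by linarith : (0 : ℝ) ≤ M + 1 + a)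
  have h2 : 0 ≤ c * (a + (-a) ^ 3 / 3) := mul_nonneg c0 (by nlinarith [sq_nonneg a])
  simp only [neg_neg] at s
  linarith

end Pool.Agent.Lib.MP_f9c8ff_an.Mo
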