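import Pool.Agent.Lib.MP_f9c8ff_an.Mo.Ext

/-! The phase function attached to the sign changes of the minimiser. -/

namespace Pool.Agent.Lib.MP_f9c8ff_an.Mo

open Real MeasureTheory Polynomial Set Filter Topology

/-- Alternating sum of `2 arctan (z / x)` over `z ∈ Y`, the largest `z` having sign `+`. -/
noncomputable def ph (Y : Finset ℝ) (x : ℝ) : ℝ :=
  2 * ∑ z ∈ Y, (∏ j ∈ Y, if z < j then (-1 : ℝ) else 1) * arctan (z / x)

/-- The product of `x² + z²` over `z ∈ Y`. -/
noncomputable def Qt (Y : Finset ℝ) (x : ℝ) : ℝ := ∏ z ∈ Y, (x ^ 2 + z ^ 2)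

lemma ph_empty (x : ℝ) : ph ∅ x = 0 := by simp [ph]

lemma ph_insert {Y : Finset ℝ} {m : ℝ} (hm : ∀ z ∈ Y, z < m) (x : ℝ) :
    ph (insert m Y) x = 2 * arctan (m / x) - ph Y x := by
  have hn : m ∉ Y := fun h => lt_irrefl _ (hm m h)
  unfold ph
  rw [Finset.sum_insert hn, Finset.prod_insert hn, if_neg (lt_irrefl m),
    Finset.prod_eq_one fun j hj => if_neg (not_lt.mpr (hm j hj).le)]
  have : ∑ z ∈ Y, (∏ j ∈ insert m Y, if z < j then (-1 : ℝ) else 1) * arctan (z / x)
      = -∑ z ∈ Y, (∏ j ∈ Y, if z < j then (-1 : ℝ) else 1) * arctan (z / x) := by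
    rw [← Finset.sum_neg_distrib]
    refine Finset.sum_congr rfl fun z hz => ?_
    rw [Finset.prod_insert hn, if_pos (hm z hz)]; ring
  rw [this]; ring

lemma ph_cont (Y : Finset ℝ) {x : ℝ} (hx : 0 < x) : ContinuousAt (ph Y) x := by
  unfold ph
  refine continuousAt_const.mul (tendsto_finsetSum _ fun z _ => ?_)
  exact ContinuousAt.mul continuousAt_const
    (continuous_arctan.continuousAt.comp (continuousAt_const.div continuousAt_id hx.ne'))

lemma Qt_pos (Y : Finset ℝ) {x : ℝ} (hx : 0 < x) : 0 < Qt Y x :=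
  Finset.prod_pos fun _ _ => by positivity

lemma QY_neg (Y : Finset ℝ) (x : ℝ) : (QY Y).eval (-x ^ 2) = (-1) ^ Y.card * Qt Y x := by
  rw [QY_eval, Qt, ← Finset.prod_const, ← Finset.prod_mul_distrib]
  exact Finset.prod_congr rfl fun z _ => by ring

lemma atan_lt {x a b : ℝ} (hx : 0 < x) (h : a < b) : arctan (a / x) < arctan (b / x) :=
  arctan_strictMono (div_lt_div_of_pos_right h hx)

lemma ph_bound {x : ℝ} (hx : 0 < x) (Y : Finset ℝ) (hY : ∀ z ∈ Y, 0 < z) :
    0 ≤ ph Y x ∧ (Y.Nonempty → 0 < ph Y x) ∧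
      ∀ b, 0 < b → (∀ z ∈ Y, z < b) → ph Y x < 2 * arctan (b / x) := by
  induction Y using Finset.induction_on_max with
  | empty =>
    refine ⟨by rw [ph_empty], by simp, fun b hb _ => ?_⟩
    have := atan_lt hx hb
    rw [zero_div, arctan_zero] at this
    rw [ph_empty]; linarith
  | insert m Y hm ih =>
    obtain ⟨h0, -, h1⟩ := ih fun z hz => hY z (Finset.mem_insert_of_mem hz)
    have h2 := h1 m (hY m (Finset.mem_insert_self _ _)) hm
    rw [ph_insert hm]
    refine ⟨by linarith, fun _ => by linarith, fun b _ hb => ?_⟩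
    have := atan_lt hx (hb m (Finset.mem_insert_self _ _))
    linarith

lemma ph_le_pi {x : ℝ} (hx : 0 < x) (Y : Finset ℝ) (hY : ∀ z ∈ Y, 0 < z) : ph Y x ≤ π := by
  obtain ⟨b, hb⟩ := (Y.finite_toSet.insert 0).bddAbove
  have h0 : 0 ≤ b := hb (mem_insert _ _)
  have := (ph_bound hx Y hY).2.2 (b + 1) (by linarith) fun z hz => by
    have : z ≤ b := hb (mem_insert_of_mem _ hz)
    linarith
  linarith [arctan_lt_pi_div_two ((b + 1) / x)]

lemma ph_small {x : ℝ} (hx : 0 < x) (Y : Finset ℝ) (hY : Y.Nonempty) :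
    ∃ z ∈ Y, 2 * arctan (z / x) ≤ ph Y x ∨
      ∀ b, (∀ y ∈ Y, y ≤ b) → ph Y x ≤ 2 * arctan (b / x) - 2 * arctan (z / x) := by
  induction Y using Finset.induction_on_max with
  | empty => simp at hY
  | insert m Y hm ih =>
    rw [ph_insert hm]
    rcases Y.eq_empty_or_nonempty with rfl | hne
    · exact ⟨m, Finset.mem_insert_self _ _, Or.inl (by rw [ph_empty]; linarith)⟩
    obtain ⟨z, hz, h | h⟩ := ih hne
    · refine ⟨z, Finset.mem_insert_of_mem hz, Or.inr fun b hb => ?_⟩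
      have : arctan (m / x) ≤ arctan (b / x) := arctan_strictMono.monotone
        (div_le_div_of_nonneg_right (hb m (Finset.mem_insert_self _ _)) hx.le)
      linarith
    · refine ⟨z, Finset.mem_insert_of_mem hz, Or.inl ?_⟩
      linarith [h m fun y hy => (hm y hy).le]

lemma intg_sgp (Q : ℝ[X]) {x : ℝ} (hx : 0 < x) :
    IntegrableOn (fun y => sg (Q.eval (y ^ 2)) * (x / (y ^ 2 + x ^ 2))) (Ioi 0) :=
  (intg_poi hx).bdd_mul (c := 1) (meas_sgQ Q).aestronglyMeasurable
    (ae_of_all _ fun _ => (abs_sg _).le)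

lemma int_sg {x : ℝ} (hx : 0 < x) (Y : Finset ℝ) (hY : ∀ z ∈ Y, 0 < z) :
    ∫ y in Ioi (0 : ℝ), sg ((QY Y).eval (y ^ 2)) * (x / (y ^ 2 + x ^ 2)) = π / 2 - ph Y x := by
  induction Y using Finset.induction_on_max with
  | empty => simp [QY, sg, int_poi hx, ph_empty]
  | insert m Y hm ih =>
    have hn : m ∉ Y := fun h => lt_irrefl _ (hm m h)
    have hm0 := hY m (Finset.mem_insert_self _ _)
    have hY' : ∀ z ∈ Y, 0 < z := fun z hz => hY z (Finset.mem_insert_of_mem hz)
    have hi : IntegrableOn (fun y => x / (y ^ 2 + x ^ 2)) (Ioi m) :=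
      (intg_poi hx).mono_set (Ioi_subset_Ioi hm0.le)
    have h1 : ∫ y in Ioi (0 : ℝ), (Ioi m).indicator (fun y => x / (y ^ 2 + x ^ 2)) y
        = π / 2 - arctan (m / x) := by
      rw [setIntegral_indicator measurableSet_Ioi, inter_eq_right.mpr (Ioi_subset_Ioi hm0.le),
        integral_Ioi_of_hasDerivAt_of_tendsto' (fun y _ => hasDeriv_atan hx y) hi (tends_atan hx)]
    have h2 : IntegrableOn ((Ioi m).indicator fun y => x / (y ^ 2 + x ^ 2)) (Ioi 0) :=
      (intg_poi hx).indicator measurableSet_Ioi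
    have h3 : ∫ y in Ioi (0 : ℝ), sg ((QY (insert m Y)).eval (y ^ 2)) * (x / (y ^ 2 + x ^ 2))
        = ∫ y in Ioi (0 : ℝ), (2 * (Ioi m).indicator (fun y => x / (y ^ 2 + x ^ 2)) y
          - sg ((QY Y).eval (y ^ 2)) * (x / (y ^ 2 + x ^ 2))) := by
      refine integral_congr_ae ?_
      filter_upwards [ae_ne (QY_monic (insert m Y)).ne_zero, ae_restrict_mem measurableSet_Ioi]
        with y hy hy0
      have hy0' : 0 < y := hy0
      rw [QY_eval, Finset.prod_insert hn, ← QY_eval] at hy ⊢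
      by_cases h : m < y
      · have hp : 0 < (QY Y).eval (y ^ 2) := by
          rw [QY_eval]
          exact Finset.prod_pos fun z hz => by
            have := hm z hz; have := hY' z hz; nlinarith
        have hq : 0 < y ^ 2 - m ^ 2 := by nlinarith
        rw [indicator_of_mem (show y ∈ Ioi m from h), sg, sg, if_pos hp.le,
          if_pos (mul_pos hq hp).le]
        ring
      · have hq : y ^ 2 - m ^ 2 < 0 :=
          lt_of_le_of_ne (by nlinarith [not_lt.mp h]) (left_ne_zero_of_mul hy)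
        rw [indicator_of_notMem (show y ∉ Ioi m from h), sg, sg]
        rcases (right_ne_zero_of_mul hy).lt_or_gt with hp | hp
        · rw [if_pos (mul_pos_of_neg_of_neg hq hp).le, if_neg (not_le.mpr hp)]; ring
        · rw [if_neg (not_le.mpr (mul_neg_of_neg_of_pos hq hp)), if_pos hp.le]; ring
    rw [h3, integral_sub (h2.const_mul 2) (intg_sgp _ hx), integral_const_mul, h1, ih hY',
      ph_insert hm]
    ring

lemma cos_two_atan {x : ℝ} (hx : 0 < x) (m : ℝ) :
    (x ^ 2 + m ^ 2) * cos (2 * arctan (m / x)) = x ^ 2 - m ^ 2 := by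
  rw [cos_two_mul, cos_sq_arctan]
  field_simp
  ring

lemma sin_two_atan {x : ℝ} (hx : 0 < x) (m : ℝ) :
    (x ^ 2 + m ^ 2) * sin (2 * arctan (m / x)) = 2 * m * x := by
  have h := tan_mul_cos (cos_arctan_pos (m / x)).ne'
  rw [sin_two_mul, ← h, tan_arctan, mul_assoc, mul_assoc, ← sq, cos_sq_arctan]
  field_simp

lemma exists_UW (Y : Finset ℝ) : ∃ U W : ℝ[X], U.natDegree ≤ Y.card ∧ W.natDegree ≤ Y.card ∧
    ∀ x, 0 < x → U.eval (x ^ 2) = Qt Y x * cos (ph Y x) ∧
      W.eval (x ^ 2) = x * Qt Y x * sin (ph Y x) := by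
  induction Y using Finset.induction_on_max with
  | empty => exact ⟨1, 0, by simp, by simp, fun x _ => by simp [Qt, ph_empty]⟩
  | insert m Y hm ih =>
    have hn : m ∉ Y := fun h => lt_irrefl _ (hm m h)
    obtain ⟨U, W, hU, hW, h⟩ := ih
    have d1 : ∀ P : ℝ[X], P.natDegree ≤ Y.card →
        ((X - C (m ^ 2)) * P).natDegree ≤ Y.card + 1 := fun P hP =>
      natDegree_mul_le.trans (by rw [natDegree_X_sub_C]; omega)
    refine ⟨(X - C (m ^ 2)) * U + (2 * m) • W, (2 * m) • (X * U) - (X - C (m ^ 2)) * W, ?_, ?_,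
      fun x hx => ?_⟩
    · rw [Finset.card_insert_of_notMem hn]
      exact (natDegree_add_le _ _).trans (max_le (d1 U hU)
        ((natDegree_smul_le _ _).trans (by omega)))
    · rw [Finset.card_insert_of_notMem hn]
      exact (natDegree_sub_le _ _).trans (max_le ((natDegree_smul_le _ _).trans
        (natDegree_mul_le.trans (by rw [natDegree_X]; omega))) (d1 W hW))
    · obtain ⟨h1, h2⟩ := h x hx
      have c := cos_two_atan hx m
      have s := sin_two_atan hx m
      simp only [eval_add, eval_sub, eval_mul, eval_smul, eval_X, eval_C, smul_eq_mul, h1, h2,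
        ph_insert hm, Qt, Finset.prod_insert hn, cos_sub, sin_sub]
      constructor
      · linear_combination (-(∏ z ∈ Y, (x ^ 2 + z ^ 2)) * cos (ph Y x)) * c
          - ((∏ z ∈ Y, (x ^ 2 + z ^ 2)) * sin (ph Y x)) * s
      · linear_combination (x * (∏ z ∈ Y, (x ^ 2 + z ^ 2)) * sin (ph Y x)) * c
          - (x * (∏ z ∈ Y, (x ^ 2 + z ^ 2)) * cos (ph Y x)) * s

end Pool.Agent.Lib.MP_f9c8ff_an.Mo
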